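import Pool.Agent.KF.T.Inst
import Pool.Agent.KF.G.Final
import Pool.Agent.KF.E.Flag

/-!
# The inequality `f_k ≤ (k + 2) f_(k+1)` for pointed families of rank `2k + 2`
-/

open Finset

namespace Pool.Agent.KF.T

open Pool.Agent.Lib_helper40.Kal Pool.Agent.KF.G

variable {ι : Type} [DecidableEq ι] {V : Type} [AddCommGroup V] [Module ℝ V]
  {p : ι → V} {s : Finset ι}

lemma card_dim {d : Fc p s → ℕ} (hd : ∀ F, d F + 1 = rk p F.1) (k : ℕ)
    [DecidablePred fun F => d F = k] :
    (univ.filter fun F : Fc p s => d F = k).card = (facesR p s (k + 1)).card := by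
  refine card_bij (fun F _ => F.1) (fun F hF => ?_) (fun F _ G _ h => Subtype.ext h)
    (fun G hG => ?_)
  · rw [mem_facesR]
    refine ⟨F.2.1, ?_⟩
    rw [← hd F, (mem_filter.1 hF).2]
  · rw [mem_facesR] at hG
    have hne : G.Nonempty := rk_pos_nonempty (p := p) (by omega)
    refine ⟨⟨G, hG.1, hne⟩, mem_filter.2 ⟨mem_univ _, ?_⟩, rfl⟩
    have := hd ⟨G, hG.1, hne⟩
    dsimp only at this
    omega

/-- The inequality, from the statements of the parts S and K. -/
theorem wu (hSHR : ∀ N, S.SHRat N) (hFACE : S.Stmt_FACE) (hEX : S.Stmt_EX)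
    (hDETW : S.Stmt_DETW) (hPDS : S.Stmt_PDS) (hK : S_K) : E.WU := by
  classical
  intro k ι _ V _ _ p s h0 hrk
  obtain ⟨𝒢, hd, -, -⟩ := exists_geo hSHR hFACE hEX hDETW hPDS h0
  have hs : s.Nonempty := rk_pos_nonempty (p := p) (by omega)
  have h1 := g_count hK (Fc p s) V 𝒢 k ⟨s, isFace_self p s, hs⟩ (fun F => F.2.1.subset) (by
    have := hd ⟨s, isFace_self p s, hs⟩
    dsimp only at this
    omega)
  rw [card_dim hd, card_dim hd] at h1
  exact h1

end Pool.Agent.KF.T
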