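import Pool.Agent.KF.T.Sys

/-!
# The truncated polytope of a face is simple, its tight sets are the chains of faces
-/

open Finset Submodule Filter Topology

namespace Pool.Agent.KF.T

open Pool.Agent.Lib_helper40.Kal

variable {ι : Type} [DecidableEq ι] {V : Type} [AddCommGroup V] [Module ℝ V]

/-- The scale of a rank function. -/
lemma scale_of_rank {U : Type} [AddCommGroup U] [Module ℝ U] {p : ι → U} {s : Finset ι}
    (r : Finset ι → ℕ) (n : ℕ)
    (hr : ∀ K ∈ FF p s, ∀ F ∈ FF p s, K ⊂ F → r K < r F) (hn : ∀ F ∈ FF p s, r F ≤ n)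
    {M : ℝ} (hM : 1 ≤ M) : Scale p s M fun F => if r F = n then 0 else M ^ (n - 1 - r F) := by
  have hM0 : 0 < M := one_pos.trans_le hM
  refine ⟨fun F _ => ?_, fun K hK F hF hKF => ?_⟩
  · dsimp only
    split_ifs
    · exact le_rfl
    · positivity
  · have h1 := hr K hK F hF hKF
    have h2 := hn F hF
    dsimp only
    rw [if_neg (by omega)]
    refine ⟨by positivity, ?_⟩
    split_ifs with h3
    · rw [mul_zero]
      positivity
    · rw [← pow_succ']
      exact pow_le_pow_right₀ hM (by omega)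

variable {p : ι → V} {s : Finset ι}

/-- The faces below `F`. -/
abbrev MF (F : Fc p s) : Type := {G : Fc p s // G < F}

noncomputable instance (F : Fc p s) : Fintype (MF F) := by
  classical
  exact Subtype.fintype _

/-- The directions of the face `F`. -/
noncomputable abbrev VF (F : Fc p s) : Submodule ℝ (W p F.1) := LinearMap.ker (oneF p s F.1)

/-- The functionals of the truncated face. -/
noncomputable def aF (F : Fc p s) : MF F → Module.Dual ℝ (VF F) :=
  fun G => -((uF p s F.1 G.1.1).domRestrict (VF F))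

/-- The support numbers of the truncated face. -/
noncomputable def hF (F : Fc p s) (e : Finset ι → ℝ) (t : ℝ) : MF F → ℝ :=
  fun G => uF p s F.1 G.1.1 (ptF p s F.1) - t * e G.1.1

lemma mem_FF_MF (h0 : IsFace p s ∅) {F : Fc p s} (G : MF F) :
    G.1.1 ∈ FF (pf p s F.1) F.1 := (mem_FF_pf h0 F.2.1).2 ⟨G.1.2.1, G.1.2.2, G.2⟩

/-- The element of `MF F`. -/
def mkMF (h0 : IsFace p s ∅) {F : Fc p s} {G : Finset ι} (hG : G ∈ FF (pf p s F.1) F.1) :
    MF F :=
  ⟨⟨G, ((mem_FF_pf h0 F.2.1).1 hG).1, ((mem_FF_pf h0 F.2.1).1 hG).2.1⟩,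
    ((mem_FF_pf h0 F.2.1).1 hG).2.2⟩

lemma tight_iff {F : Fc p s} (e : Finset ι → ℝ) (t : ℝ) (G : MF F) (x : VF F) :
    aF F G x = hF F e t G ↔ uF p s F.1 G.1.1 (ptF p s F.1 + x) = t * e G.1.1 := by
  rw [aF, hF, LinearMap.neg_apply, LinearMap.domRestrict_apply, map_add]
  constructor <;> intro h <;> linarith

lemma le_iff {F : Fc p s} (e : Finset ι → ℝ) (t : ℝ) (G : MF F) (x : VF F) :
    aF F G x ≤ hF F e t G ↔ t * e G.1.1 ≤ uF p s F.1 G.1.1 (ptF p s F.1 + x) := by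
  rw [aF, hF, LinearMap.neg_apply, LinearMap.domRestrict_apply, map_add]
  constructor <;> intro h <;> linarith

lemma feas_iff (h0 : IsFace p s ∅) {F : Fc p s} (e : Finset ι → ℝ) (t : ℝ) (x : VF F) :
    S.Feas (aF F) (hF F e t) x ↔
      ∀ G ∈ FF (pf p s F.1) F.1, t * e G ≤ uF p s F.1 G (ptF p s F.1 + x) := by
  constructor
  · intro h G hG
    exact (le_iff e t (mkMF h0 hG) x).1 (h _)
  · intro h G
    exact (le_iff e t G x).2 (h _ (mem_FF_MF h0 G))

lemma one_add (h0 : IsFace p s ∅) {F : Fc p s} (x : VF F) :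
    oneF p s F.1 (ptF p s F.1 + x) = 1 := by
  rw [map_add, ptF_one h0 F.2.1 F.2.2, LinearMap.mem_ker.1 x.2, add_zero]

/-- The point of the slice. -/
lemma exists_pt (h0 : IsFace p s ∅) {F : Fc p s} {X : W p F.1} (hX : oneF p s F.1 X = 1) :
    ∃ x : VF F, ptF p s F.1 + x = X :=
  ⟨⟨X - ptF p s F.1, by rw [LinearMap.mem_ker, map_sub, hX, ptF_one h0 F.2.1 F.2.2, sub_self]⟩,
    by simp⟩

theorem simple_of (h0 : IsFace p s ∅) (F : Fc p s) : ∃ M : ℝ, 1 ≤ M ∧
    ∀ e : Finset ι → ℝ, Scale (pf p s F.1) F.1 M e → ∀ᶠ t in 𝓝[>] (0 : ℝ),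
      S.Simple (aF F) (hF F e t) ∧
      ∀ c : Finset (MF F), S.IsFace (aF F) (hF F e t) c ↔
        IsChain (· ≤ ·) (c : Set (MF F)) := by
  classical
  have hS := sup_pf h0 F.2.1
  obtain ⟨M, hM, hT⟩ := hS.trunc F.2.2
  refine ⟨M, hM, fun e he => ?_⟩
  filter_upwards [hT e he] with t ht
  obtain ⟨ht1, ht2⟩ := ht
  refine ⟨⟨?_, ?_, ?_⟩, fun c => ⟨?_, ?_⟩⟩
  · -- bounded
    intro y hy
    refine Subtype.ext (hS.recession (LinearMap.mem_ker.1 y.2) (fun G hG => ?_) F.2.2)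
    have := hy (mkMF h0 hG)
    rw [aF, LinearMap.neg_apply, LinearMap.domRestrict_apply] at this
    exact neg_nonpos.1 this
  · -- interior point
    obtain ⟨X, hX1, hX⟩ := ht2 ∅ (empty_subset _) (by simp)
    obtain ⟨x, rfl⟩ := exists_pt h0 hX1
    refine ⟨x, fun G => ?_⟩
    obtain ⟨h1, h2⟩ := hX _ (mem_FF_MF h0 G)
    refine lt_of_le_of_ne ((le_iff e t G x).2 h1) fun he' => ?_
    exact notMem_empty _ (h2.1 ((tight_iff e t G x).1 he'))
  · -- independence
    intro x hx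
    rw [feas_iff h0] at hx
    set c := (FF (pf p s F.1) F.1).filter
      (fun G => uF p s F.1 G (ptF p s F.1 + x) = t * e G) with hc
    have hch : IsChain (· ⊆ ·) (c : Set (Finset ι)) := by
      intro G hG H hH _
      obtain ⟨hG1, hG2⟩ := mem_filter.1 (mem_coe.1 hG)
      obtain ⟨hH1, hH2⟩ := mem_filter.1 (mem_coe.1 hH)
      exact ht1 _ (one_add h0 x) hx G hG1 H hH1 hG2 hH2
    have hli := hS.linInd F.2.2 (filter_subset _ _) hch
    have hli' := hli.map' (LinearEquiv.neg ℝ).toLinearMap (LinearEquiv.ker _)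
    have := hli'.comp (fun j : {j : MF F // aF F j x = hF F e t j} =>
      (⟨j.1.1.1, mem_filter.2 ⟨mem_FF_MF h0 j.1, (tight_iff e t j.1 x).1 j.2⟩⟩ : c))
      (fun j j' h => Subtype.ext (Subtype.ext (Subtype.ext (Subtype.mk.inj h))))
    exact this
  · -- a tight set is a chain
    rintro ⟨x, hx, hc⟩ G hG H hH _
    rw [feas_iff h0] at hx
    exact ht1 _ (one_add h0 x) hx _ (mem_FF_MF h0 G) _ (mem_FF_MF h0 H)
      ((tight_iff e t G x).1 (hc G hG)) ((tight_iff e t H x).1 (hc H hH))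
  · intro hc
    obtain ⟨X, hX1, hX⟩ := ht2 (c.image fun G => G.1.1)
      (fun G hG => by
        obtain ⟨H, -, rfl⟩ := mem_image.1 hG
        exact mem_FF_MF h0 H)
      (by
        intro G hG H hH hne
        obtain ⟨G', hG', rfl⟩ := mem_image.1 (mem_coe.1 hG)
        obtain ⟨H', hH', rfl⟩ := mem_image.1 (mem_coe.1 hH)
        exact hc.total hG' hH')
    obtain ⟨x, rfl⟩ := exists_pt h0 hX1
    refine ⟨x, (feas_iff h0 e t x).2 fun G hG => (hX G hG).1, fun G hG => ?_⟩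
    rw [tight_iff]
    exact (hX _ (mem_FF_MF h0 G)).2.2 (mem_image_of_mem (fun G : MF F => G.1.1) hG)

end Pool.Agent.KF.T
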