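import Pool.Agent.KF.T.Loc
import Pool.Agent.KF.T.Smp

/-!
# Face data for every pointed family
-/

open Finset Submodule Filter Topology

namespace Pool.Agent.KF.T

open Pool.Agent.Lib_helper40.Kal Pool.Agent.KF.G

variable {ι : Type} [DecidableEq ι] {V : Type} [AddCommGroup V] [Module ℝ V]
  {p : ι → V} {s : Finset ι}

lemma rk_pos_of (h0 : IsFace p s ∅) (F : Fc p s) : 0 < rk p F.1 := by
  have := h0.rk_lt F.2.1.subset (empty_ssubset.2 F.2.2)
  omega

lemma rk_lt_of {G F : Fc p s} (h : G < F) : rk p G.1 < rk p F.1 :=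
  G.2.1.rk_lt F.2.1.subset h

lemma finrank_VF (h0 : IsFace p s ∅) (F : Fc p s) :
    Module.finrank ℝ (VF F) = rk p F.1 - 1 := by
  have h1 := (oneF p s F.1).finrank_range_add_finrank_ker
  have h2 : LinearMap.range (oneF p s F.1) = ⊤ := by
    rw [LinearMap.range_eq_top]
    intro c
    refine ⟨c • ptF p s F.1, ?_⟩
    rw [map_smul, ptF_one h0 F.2.1 F.2.2, smul_eq_mul, mul_one]
  rw [h2, finrank_top, Module.finrank_self] at h1
  change 1 + Module.finrank ℝ (VF F) = rk p F.1 at h1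
  omega

/-- The functionals. -/
noncomputable def lF (p : ι → V) (s : Finset ι) (F : Fc p s) : V →ₗ[ℝ] ℝ := uf p s F.1

omit [DecidableEq ι] in
lemma hWU (F : Fc p s) : ∀ x ∈ W p F.1, one p s x = 0 →
    ∃ y : VF F, ∀ G : MF F, aF F G y = - lF p s G.1 x :=
  fun x hx hx1 => ⟨⟨⟨x, hx⟩, hx1⟩, fun _ => rfl⟩

omit [DecidableEq ι] in
lemma hUW (F : Fc p s) (y : VF F) : ∃ x ∈ W p F.1, one p s x = 0 ∧
    ∀ G : MF F, aF F G y = - lF p s G.1 x :=
  ⟨y.1, y.1.2, y.2, fun _ => rfl⟩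

/-- The degree functional of a face exists. -/
theorem exists_D (hSHR : ∀ N, S.SHRat N) (hFACE : S.Stmt_FACE) (hEX : S.Stmt_EX)
    (hDETW : S.Stmt_DETW) (hPDS : S.Stmt_PDS) (h0 : IsFace p s ∅)
    (F : Fc p s) : ∃ D : Fn (Fc p s), Homog D (rk p F.1 - 1) ∧
      (∀ G, ¬ G < F → ∀ q, D (MvPolynomial.X G * q) = 0) ∧
      (∀ G H, ¬ G ≤ H → ¬ H ≤ G → ∀ q, D (MvPolynomial.X G * (MvPolynomial.X H * q)) = 0) ∧
      (∀ x ∈ W p F.1, one p s x = 0 → ∀ q, D (th (lF p s) F x * q) = 0) ∧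
      (∀ t : Finset (Fc p s), (∀ G ∈ t, G < F) → IsChain (· ≤ ·) (t : Set (Fc p s)) →
        t.card = rk p F.1 - 1 → 0 < D (∏ G ∈ t, MvPolynomial.X G)) ∧
      (∀ (m : ℕ) (L : Fn (Fc p s)),
        (∀ G H, G < F → H < F → ¬ G ≤ H → ¬ H ≤ G → ∀ q ∈ low F,
          (MvPolynomial.X G * (MvPolynomial.X H * q)).IsHomogeneous m →
            L (MvPolynomial.X G * (MvPolynomial.X H * q)) = 0) →
        (∀ x ∈ W p F.1, one p s x = 0 → ∀ q ∈ low F, (th (lF p s) F x * q).IsHomogeneous m →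
          L (th (lF p s) F x * q) = 0) →
        ∃ z ∈ low F, z.IsHomogeneous (rk p F.1 - 1 - m) ∧
          ∀ q ∈ low F, q.IsHomogeneous m → L q = D (z * q)) ∧
      ∃ e : Fc p s → ℝ, (∀ G, 0 ≤ e G) ∧ (∀ G, rk p G.1 - 1 + 1 = rk p F.1 - 1 → e G = 0) ∧
        ∃ T0 : ℝ, ∀ T ≥ T0,
          HR D (rk p F.1 - 1) (et e F + MvPolynomial.C T * th (lF p s) F (ptF p s F.1)) ∧
          ∀ G < F, HR (mulL (MvPolynomial.X G) D) (rk p F.1 - 1 - 1)
            (et e F + MvPolynomial.C T * th (lF p s) F (ptF p s F.1)) := by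
  classical
  have hrk := rk_pos_of h0 F
  have hfin := finrank_VF h0 F
  obtain ⟨N, hN⟩ : ∃ N, N = rk p F.1 - 1 := ⟨_, rfl⟩
  rw [← hN] at hfin ⊢
  obtain ⟨M, hM, hsim⟩ := simple_of h0 F
  obtain ⟨e, he⟩ : ∃ e : Finset ι → ℝ,
      e = fun G => if rk p G = N then 0 else M ^ (N - 1 - rk p G) := ⟨_, rfl⟩
  have hM0 : 0 < M := one_pos.trans_le hM
  have he0 : ∀ G, 0 ≤ e G := by
    intro G
    rw [he]
    dsimp only
    split_ifs
    · exact le_rfl
    · positivity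
  have hsc : Scale (pf p s F.1) F.1 M e := by
    rw [he]
    refine scale_of_rank (rk p) N (fun K hK G hG hKG => ?_) (fun G hG => ?_) hM
    · obtain ⟨hK1, -, -⟩ := (mem_FF_pf h0 F.2.1).1 hK
      obtain ⟨hG1, -, -⟩ := (mem_FF_pf h0 F.2.1).1 hG
      exact hK1.rk_lt hG1.subset hKG
    · obtain ⟨hG1, -, hGF⟩ := (mem_FF_pf h0 F.2.1).1 hG
      have := hG1.rk_lt F.2.1.subset hGF
      omega
  have hev := hsim e hsc
  obtain ⟨t0, hS0, hch0⟩ := hev.exists
  -- the functional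
  let b := Module.finBasisOfFinrankEq ℝ (VF F) hfin
  obtain ⟨hv1, hv2⟩ := hDETW (VF F) (MF F) (aF F) (hF F e t0) N b hS0
  obtain ⟨D, hD, -⟩ := hEX (VF F) (MF F) (aF F) _ N _ hS0 hfin hv2
    (fun B hB => inv_pos.2 (hv1 B hB))
  refine ⟨ext F N D, ext_homog D, fun G hG q => loc_out hG q,
    fun G H hGH hHG q => loc_inc hch0 hD hGH hHG q,
    fun x hx hx1 q => loc_lin (hWU F) hD hx hx1 q,
    fun t ht htc htN => loc_pos hch0 hD ht htc htN,
    fun m L h1 h2 => loc_pd hPDS hS0 hfin hch0 hD (hUW F) m L h1 h2,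
    fun G => e G.1, fun G => he0 G.1, fun G hG => ?_, ?_⟩
  · have h1 := rk_pos_of h0 G
    rw [he]
    exact if_pos (by omega)
  · have hev' : ∀ᶠ t in 𝓝[>] (0 : ℝ),
        HR (ext F N D) N (et (fun G : Fc p s => e G.1) F +
          MvPolynomial.C (1 / t) * th (lF p s) F (ptF p s F.1)) ∧
        ∀ G < F, HR (mulL (MvPolynomial.X G) (ext F N D)) (N - 1)
          (et (fun G : Fc p s => e G.1) F +
            MvPolynomial.C (1 / t) * th (lF p s) F (ptF p s F.1)) := by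
      filter_upwards [hev, self_mem_nhdsWithin] with t ht ht0
      obtain ⟨hS, hch⟩ := ht
      have hD' : S.IsDeg (aF F) (hF F e t) N D :=
        isDeg_congr (fun c => (hch0 c).trans (hch c).symm) hD
      obtain ⟨h1, h2⟩ := loc_hr hFACE hSHR hS hfin hD' (l := lF p s)
        (e := fun G : Fc p s => e G.1) (t := t) ht0 (x := (ptF p s F.1 : V)) (fun G => rfl)
      exact ⟨h1, fun G hG => h2 G hG ((hch _).2 (by simp))⟩
    rw [eventually_nhdsWithin_iff, Metric.eventually_nhds_iff] at hev'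
    obtain ⟨δ, hδ, hδ'⟩ := hev'
    refine ⟨2 / δ, fun T hT => ?_⟩
    have hT0 : 0 < T := lt_of_lt_of_le (by positivity) hT
    have h1 : dist (1 / T) 0 < δ := by
      rw [Real.dist_eq, sub_zero, abs_of_pos (by positivity), div_lt_iff₀ hT0]
      have h2 : 2 ≤ δ * T := by
        rwa [ge_iff_le, div_le_iff₀ hδ, mul_comm] at hT
      linarith
    have h3 := hδ' h1 (by
      rw [Set.mem_Ioi]
      positivity)
    rwa [one_div_one_div] at h3

/-- Face data exist for every pointed family. -/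
theorem exists_geo (hSHR : ∀ N, S.SHRat N) (hFACE : S.Stmt_FACE) (hEX : S.Stmt_EX)
    (hDETW : S.Stmt_DETW) (hPDS : S.Stmt_PDS) (h0 : IsFace p s ∅) :
    ∃ 𝒢 : Geo (Fc p s) V, (∀ F, 𝒢.dim F + 1 = rk p F.1) ∧
      (∀ F, 𝒢.W F = span ℝ (p '' (F.1 : Set ι))) ∧ 𝒢.l = lF p s := by
  choose D D_homog D_out D_inc D_lin D_pos PD hr using
    fun F : Fc p s => exists_D hSHR hFACE hEX hDETW hPDS h0 F
  refine ⟨{
    dim := fun F => rk p F.1 - 1
    dim_lt := ?_
    facet := ?_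
    vert := ?_
    W := fun F => W p F.1
    W_mono := ?_
    W_fin := fun F => fd_span p F.1
    W_rank := ?_
    one := one p s
    pt := fun F => (ptF p s F.1 : V)
    pt_mem := fun F => (ptF p s F.1).2
    pt_one := fun F => ptF_one h0 F.2.1 F.2.2
    l := lF p s
    l_zero := ?_
    D := D
    D_homog := D_homog
    D_out := D_out
    D_inc := D_inc
    D_lin := D_lin
    D_pos := D_pos
    PD := PD
    hr := hr }, ?_, ?_, ?_⟩
  · intro G F hGF
    have h1 := rk_pos_of h0 G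
    have h2 := rk_lt_of hGF
    omega
  · intro G F hGF
    obtain ⟨T, hT, hGT, hrk⟩ := exists_facet
      ((isFace_restrict F.2.1).2 ⟨G.2.1, hGF.le⟩) (ne_of_lt hGF ∘ Subtype.ext)
    have hT' := (isFace_restrict F.2.1).1 hT
    have hTF : T ≠ F.1 := by
      rintro rfl
      omega
    have hTne : T.Nonempty := G.2.2.mono hGT
    refine ⟨⟨T, hT'.1, hTne⟩, hGT, lt_of_le_of_ne hT'.2 fun h => hTF (congrArg Subtype.val h), ?_⟩
    have h1 := rk_pos_of h0 ⟨T, hT'.1, hTne⟩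
    dsimp only at h1 ⊢
    omega
  · intro F hF'
    obtain ⟨G, hG, -, hrk⟩ := exists_face_rk
      ((isFace_restrict F.2.1).2 ⟨h0, empty_subset _⟩) 1 (by rw [rk_empty]; omega) (by omega)
    have hG' := (isFace_restrict F.2.1).1 hG
    have hGF : G ≠ F.1 := by
      rintro rfl
      omega
    exact ⟨⟨G, hG'.1, rk_pos_nonempty (p := p) (by omega)⟩,
      lt_of_le_of_ne hG'.2 fun h => hGF (congrArg Subtype.val h)⟩
  · intro G F hGF
    exact span_mono (Set.image_mono (coe_subset.2 hGF))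
  · intro F
    have h1 := rk_pos_of h0 F
    change rk p F.1 = rk p F.1 - 1 + 1
    omega
  · intro G F hGF x hx
    exact le_ker_of_zero (fun i hi => uf_zero F.2.1 (hGF hi)) hx
  · intro F
    have h1 := rk_pos_of h0 F
    change rk p F.1 - 1 + 1 = rk p F.1
    omega
  · intro F
    rfl
  · rfl

end Pool.Agent.KF.T
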