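import Pool.Agent.KF.T.Trunc

/-!
# Independence of the functionals of a chain; choice of supporting functionals
-/

open Finset Submodule Filter Topology

namespace Pool.Agent.KF.T

open Pool.Agent.Lib_helper40.Kal

universe u v

variable {ι : Type u} [DecidableEq ι] {V : Type v} [AddCommGroup V] [Module ℝ V]

section

variable {p : ι → V} {s : Finset ι} {one : V →ₗ[ℝ] ℝ} {u : Finset ι → V →ₗ[ℝ] ℝ}

/-- The functionals of a chain and `one` are independent. -/
theorem Sup.indep (h : Sup p s one u) {c : Finset (Finset ι)} (hc : c ⊆ FF p s)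
    (hch : IsChain (· ⊆ ·) (c : Set (Finset ι))) {a : Finset ι → ℝ} {b : ℝ}
    (hab : ∑ F ∈ c, a F • u F = b • one) : ∀ F ∈ c, a F = 0 := by
  classical
  by_contra hcon
  push Not at hcon
  obtain ⟨F₀, hF₀, hne₀⟩ := hcon
  have hch' : IsChain (· ⊆ ·) ((c.filter fun F => a F ≠ 0 : Finset (Finset ι)) :
      Set (Finset ι)) := hch.mono (by exact_mod_cast filter_subset _ c)
  obtain ⟨H, hH, hmin⟩ := exists_least hch' ⟨F₀, mem_filter.2 ⟨hF₀, hne₀⟩⟩
  obtain ⟨hHc, hHa⟩ := mem_filter.1 hH
  have hsum : ∀ i, ∑ F ∈ c, a F * u F (p i) = b * one (p i) := by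
    intro i
    have := LinearMap.congr_fun hab (p i)
    simpa using this
  -- `b = 0`
  obtain ⟨i₀, hi₀⟩ := (mem_FF.1 (hc hHc)).2.1
  have hi₀s := FF_subset (hc hHc) hi₀
  have hb : b = 0 := by
    have h1 := hsum i₀
    rw [h.one i₀ hi₀s, mul_one, sum_eq_zero] at h1
    · exact h1.symm
    · intro F hF
      by_cases haF : a F = 0
      · rw [haF, zero_mul]
      · rw [h.zero F (hc hF) i₀ (hmin F (mem_filter.2 ⟨hF, haF⟩) hi₀), mul_zero]
  -- a vertex of the next face
  obtain ⟨i, his, hiH, hi⟩ : ∃ i ∈ s, i ∉ H ∧ ∀ F ∈ c, a F ≠ 0 → F ≠ H → i ∈ F := by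
    rcases ((c.filter fun F => a F ≠ 0).erase H).eq_empty_or_nonempty with h0 | h0
    · obtain ⟨i, hi, hiH⟩ := exists_of_ssubset (FF_ssubset (hc hHc))
      refine ⟨i, hi, hiH, fun F hF haF hFH => ?_⟩
      have : F ∈ (c.filter fun F => a F ≠ 0).erase H :=
        mem_erase.2 ⟨hFH, mem_filter.2 ⟨hF, haF⟩⟩
      rw [h0] at this
      exact absurd this (notMem_empty _)
    · obtain ⟨G, hG, hGmin⟩ := exists_least
        (hch'.mono (by exact_mod_cast erase_subset H _)) h0
      obtain ⟨hGH, hG'⟩ := mem_erase.1 hG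
      have hss : H ⊂ G := (hmin G hG').ssubset_of_ne hGH.symm
      obtain ⟨i, hi, hiH⟩ := exists_of_ssubset hss
      refine ⟨i, FF_subset (hc (mem_filter.1 hG').1) hi, hiH, fun F hF haF hFH => ?_⟩
      exact hGmin F (mem_erase.2 ⟨hFH, mem_filter.2 ⟨hF, haF⟩⟩) hi
  have h1 := hsum i
  rw [hb, zero_mul, sum_eq_single_of_mem H hHc] at h1
  · rcases mul_eq_zero.1 h1 with h2 | h2
    · exact hHa h2
    · exact absurd h2 (h.pos H (hc hHc) i his hiH).ne'
  · intro F hF hFH
    by_cases haF : a F = 0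
    · rw [haF, zero_mul]
    · rw [h.zero F (hc hF) i (hi F hF haF hFH), mul_zero]

/-- The functionals of a chain are linearly independent on the slice. -/
theorem Sup.linInd (h : Sup p s one u) (hs : s.Nonempty) {c : Finset (Finset ι)}
    (hc : c ⊆ FF p s) (hch : IsChain (· ⊆ ·) (c : Set (Finset ι))) :
    LinearIndependent ℝ fun F : c => (u F).domRestrict (LinearMap.ker one) := by
  rw [Fintype.linearIndependent_iff]
  intro g hg
  obtain ⟨i₀, hi₀⟩ := hs
  have h1 : one (p i₀) = 1 := h.one i₀ hi₀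
  set f : V →ₗ[ℝ] ℝ := ∑ F : c, g F • u F with hf
  have hker : ∀ x, one x = 0 → f x = 0 := by
    intro x hx
    have := LinearMap.congr_fun hg (⟨x, hx⟩ : LinearMap.ker one)
    simpa [hf] using this
  have hfo : f = f (p i₀) • one := by
    refine LinearMap.ext fun x => ?_
    have := hker (x - one x • p i₀) (by rw [map_sub, map_smul, h1, smul_eq_mul, mul_one, sub_self])
    rw [map_sub, map_smul, smul_eq_mul, sub_eq_zero] at this
    rw [this, LinearMap.smul_apply, smul_eq_mul, mul_comm]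
  have key := h.indep hc hch (a := fun F => if hF : F ∈ c then g ⟨F, hF⟩ else 0)
    (b := f (p i₀)) (by
      rw [← hfo, hf, ← sum_coe_sort c fun F => (if hF : F ∈ c then g ⟨F, hF⟩ else 0) • u F]
      exact sum_congr rfl fun F _ => by rw [dif_pos F.2])
  intro F
  have := key F F.2
  rwa [dif_pos F.2] at this

/-- A functional which is nonnegative on the vertices and zero exactly on the face `F`. -/
noncomputable def uf (p : ι → V) (s F : Finset ι) : V →ₗ[ℝ] ℝ := by
  classical exact if h : IsFace p s F then h.2.choose else 0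

omit [DecidableEq ι] in
lemma uf_zero {F : Finset ι} (hF : IsFace p s F) {i : ι} (hi : i ∈ F) : uf p s F (p i) = 0 := by
  classical
  rw [uf, dif_pos hF]
  exact hF.2.choose_spec.1 i hi

omit [DecidableEq ι] in
lemma uf_pos {F : Finset ι} (hF : IsFace p s F) {i : ι} (hi : i ∈ s) (hiF : i ∉ F) :
    0 < uf p s F (p i) := by
  classical
  rw [uf, dif_pos hF]
  exact hF.2.choose_spec.2 i hi hiF

/-- The supporting functionals. -/
theorem sup_uf (htop : span ℝ (p '' (s : Set ι)) = ⊤) (h1 : ∀ i ∈ s, one (p i) = 1) :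
    Sup p s one (uf p s) where
  top := htop
  one := h1
  zero := fun _ hF _ hi => uf_zero (mem_FF.1 hF).1 hi
  pos := fun _ hF _ hi hiF => uf_pos (mem_FF.1 hF).1 hi hiF

/-- Scales exist. -/
theorem exists_scale (p : ι → V) (s : Finset ι) (n : ℕ) {M : ℝ} (hM : 1 ≤ M)
    (hn : rk p s = n + 1) :
    Scale p s M fun F => if rk p F = n then 0 else M ^ (n - 1 - rk p F) := by
  have hM0 : 0 < M := one_pos.trans_le hM
  refine ⟨fun F _ => ?_, fun K hK F hF hKF => ?_⟩
  · dsimp only
    split_ifs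
    · exact le_rfl
    · positivity
  · have h1 := (mem_FF.1 hK).1.rk_lt (FF_subset hF) hKF
    have h2 := (mem_FF.1 hF).1.rk_lt (Subset.refl s) (FF_ssubset hF)
    dsimp only
    rw [if_neg (by omega)]
    refine ⟨by positivity, ?_⟩
    split_ifs with h3
    · rw [mul_zero]
      positivity
    · rw [← pow_succ']
      exact pow_le_pow_right₀ hM (by omega)

end

end Pool.Agent.KF.T
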