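import Pool.Agent.KF.T.Trn

/-!
# The degree functional of one face: properties of its extension to all faces
-/

open Finset

namespace Pool.Agent.KF.T

open MvPolynomial Pool.Agent.KF.G

section

variable {U M : Type} [AddCommGroup U] [Module ℝ U] {a : M → Module.Dual ℝ U} {h : M → ℝ} {N : ℕ}

lemma isFace_mono {c c' : Finset M} (hc : c ⊆ c') (h' : S.IsFace a h c') :
    S.IsFace a h c := by
  obtain ⟨x, hx, h1⟩ := h'
  exact ⟨x, hx, fun j hj => h1 j (hc hj)⟩

/-- The functional kills all the multiples of the monomials of nonfaces. -/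
lemma sr_mul {D : MvPolynomial M ℝ →ₗ[ℝ] ℝ}
    (hD : ∀ m : M →₀ ℕ, m.degree = N → ¬ S.IsFace a h m.support → D (monomial m 1) = 0)
    {d : M →₀ ℕ} (hd : ¬ S.IsFace a h d.support) {m : ℕ} {q : MvPolynomial M ℝ}
    (hq : q.IsHomogeneous m) (hm : d.degree + m = N) : D (monomial d 1 * q) = 0 := by
  classical
  conv_lhs => rw [← q.support_sum_monomial_coeff]
  rw [mul_sum, map_sum]
  refine sum_eq_zero fun d' hd' => ?_
  have hdeg : d'.degree = m := by
    rw [Finsupp.degree_eq_weight_one]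
    exact hq (mem_support_iff.1 hd')
  have e : monomial d (1 : ℝ) * monomial d' (coeff d' q) =
      C (coeff d' q) * monomial (d + d') 1 := by
    rw [monomial_mul, C_mul_monomial, one_mul, mul_one]
  rw [e, C_mul', map_smul, hD, smul_zero]
  · rw [map_add, hdeg, hm]
  · intro h1
    refine hd (isFace_mono ?_ h1)
    intro j hj
    rw [Finsupp.mem_support_iff] at hj ⊢
    rw [Finsupp.add_apply]
    omega

/-- Degree functionals only depend on the set of faces. -/
lemma isDeg_congr [Fintype M] {h' : M → ℝ} {D : MvPolynomial M ℝ →ₗ[ℝ] ℝ}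
    (hh : ∀ c, S.IsFace a h c ↔ S.IsFace a h' c) (hD : S.IsDeg a h N D) :
    S.IsDeg a h' N D where
  sr := fun m hm hf => hD.sr m hm (fun h1 => hf ((hh _).1 h1))
  lin := hD.lin
  pos := fun s hs => hD.pos s ⟨(hh _).2 hs.1, hs.2⟩

end

section

variable {Φ : Type} [Fintype Φ] [PartialOrder Φ] {F : Φ} [Fintype {G : Φ // G < F}]
  {V : Type} [AddCommGroup V] [Module ℝ V] {U : Type} [AddCommGroup U] [Module ℝ U]
  {a : {G : Φ // G < F} → Module.Dual ℝ U} {h : {G : Φ // G < F} → ℝ} {N : ℕ}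
  {D : MvPolynomial {G : Φ // G < F} ℝ →ₗ[ℝ] ℝ} {l : Φ → V →ₗ[ℝ] ℝ} {WF : Submodule ℝ V}
  {one : V →ₗ[ℝ] ℝ}

omit [Fintype Φ] [Fintype {G : Φ // G < F}] in
lemma loc_out {G : Φ} (hG : ¬ G < F) (q : MvPolynomial Φ ℝ) :
    ext F N D (X G * q) = 0 := by
  refine ext_zero D (isHomogeneous_X ℝ G) (fun m q _ _ => ?_) q
  rw [pi_X' hG, zero_mul, map_zero]

omit [Fintype Φ] in
lemma sr_XX (hch : ∀ c : Finset {G : Φ // G < F}, S.IsFace a h c ↔
    IsChain (· ≤ ·) (c : Set {G : Φ // G < F}))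
    (hD : S.IsDeg a h N D) {G H : {G : Φ // G < F}} (hGH : ¬ G ≤ H) (hHG : ¬ H ≤ G) {m : ℕ}
    {q : MvPolynomial {G : Φ // G < F} ℝ} (hq : q.IsHomogeneous m) (hm : 2 + m = N) :
    D (X G * X H * q) = 0 := by
  classical
  have e : (X G * X H : MvPolynomial {G : Φ // G < F} ℝ) =
      monomial (Finsupp.single G 1 + Finsupp.single H 1) 1 := by
    rw [X, X, monomial_mul, one_mul]
  rw [e]
  refine sr_mul (N := N) hD.sr (fun h1 => ?_) hq ?_
  · rw [hch] at h1
    have hG : G ∈ ((Finsupp.single G 1 + Finsupp.single H 1 : {G : Φ // G < F} →₀ ℕ).support :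
        Set _) := by
      rw [mem_coe, Finsupp.mem_support_iff, Finsupp.add_apply, Finsupp.single_eq_same]
      omega
    have hH : H ∈ ((Finsupp.single G 1 + Finsupp.single H 1 : {G : Φ // G < F} →₀ ℕ).support :
        Set _) := by
      rw [mem_coe, Finsupp.mem_support_iff, Finsupp.add_apply, Finsupp.single_eq_same]
      omega
    rcases h1.total hG hH with h2 | h2
    · exact hGH h2
    · exact hHG h2
  · rw [map_add, Finsupp.degree_single, Finsupp.degree_single]
    exact hm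

omit [Fintype Φ] in
lemma loc_inc (hch : ∀ c : Finset {G : Φ // G < F}, S.IsFace a h c ↔
    IsChain (· ≤ ·) (c : Set {G : Φ // G < F}))
    (hD : S.IsDeg a h N D) {G H : Φ} (hGH : ¬ G ≤ H) (hHG : ¬ H ≤ G)
    (q : MvPolynomial Φ ℝ) : ext F N D (X G * (X H * q)) = 0 := by
  by_cases hG : G < F
  · by_cases hH : H < F
    · rw [← mul_assoc]
      refine ext_zero D ((isHomogeneous_X ℝ G).mul (isHomogeneous_X ℝ H))
        (fun m q hm hq => ?_) q
      rw [map_mul (pi F), pi_X hG, pi_X hH]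
      exact sr_XX hch hD (fun h1 => hGH h1) (fun h1 => hHG h1) hq hm
    · rw [mul_left_comm]
      exact loc_out hH _
  · exact loc_out hG _

lemma pi_th (x : V) : pi F (th l F x) = ∑ G : {G : Φ // G < F}, C (l G.1 x) * X G := by
  classical
  rw [th, map_sum, Finset.sum_subtype (univ.filter fun G => G < F) (p := fun G => G < F)
    (fun G => by simp)]
  exact sum_congr (by congr) fun G _ => by rw [map_mul, pi_C, pi_X G.2]

lemma pi_et (e : Φ → ℝ) : pi F (et e F) = - ∑ G : {G : Φ // G < F}, C (e G.1) * X G := by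
  classical
  rw [et, map_neg, map_sum, Finset.sum_subtype (univ.filter fun G => G < F) (p := fun G => G < F)
    (fun G => by simp)]
  refine congrArg Neg.neg (sum_congr (by congr) fun G _ => ?_)
  rw [map_mul, pi_C, pi_X G.2]

lemma lin_eq {x : V} {y : U} (hxy : ∀ G : {G : Φ // G < F}, a G y = - l G.1 x) :
    S.lin a y = - pi F (th l F x) := by
  rw [pi_th, S.lin, ← sum_neg_distrib]
  exact sum_congr rfl fun G _ => by rw [hxy, C_neg, neg_mul]

lemma loc_lin (hWU : ∀ x ∈ WF, one x = 0 → ∃ y : U, ∀ G : {G : Φ // G < F}, a G y = - l G.1 x)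
    (hD : S.IsDeg a h N D) {x : V} (hx : x ∈ WF) (hx1 : one x = 0) (q : MvPolynomial Φ ℝ) :
    ext F N D (th l F x * q) = 0 := by
  obtain ⟨y, hy⟩ := hWU x hx hx1
  refine ext_zero D (th_homog l F x) (fun m q hm hq => ?_) q
  have h1 := hD.lin y m q (by omega) hq
  rw [lin_eq hy, neg_mul, map_neg, neg_eq_zero] at h1
  exact h1

omit [Fintype Φ] [Fintype {G : Φ // G < F}] in
lemma mon_homog (c : Finset {G : Φ // G < F}) : (S.mon c).IsHomogeneous c.card := by
  have := IsHomogeneous.prod c (fun j => (X j : MvPolynomial {G : Φ // G < F} ℝ))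
    (fun _ => 1) (fun j _ => isHomogeneous_X ℝ j)
  rw [sum_const, smul_eq_mul, mul_one] at this
  exact this

omit [Fintype Φ] in
lemma loc_pos (hch : ∀ c : Finset {G : Φ // G < F}, S.IsFace a h c ↔
    IsChain (· ≤ ·) (c : Set {G : Φ // G < F}))
    (hD : S.IsDeg a h N D) {t : Finset Φ} (ht : ∀ G ∈ t, G < F)
    (htc : IsChain (· ≤ ·) (t : Set Φ)) (hN : t.card = N) : 0 < ext F N D (∏ G ∈ t, X G) := by
  classical
  have hh : (∏ G ∈ t, (X G : MvPolynomial Φ ℝ)).IsHomogeneous N := by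
    have := IsHomogeneous.prod t (fun j => (X j : MvPolynomial Φ ℝ)) (fun _ => 1)
      (fun j _ => isHomogeneous_X ℝ j)
    rw [sum_const, smul_eq_mul, mul_one, hN] at this
    exact this
  have e : pi F (∏ G ∈ t, (X G : MvPolynomial Φ ℝ)) = S.mon (t.subtype (· < F)) := by
    rw [map_prod, S.mon, ← prod_subtype_of_mem _ ht]
    exact prod_congr rfl fun G _ => pi_X G.2
  rw [ext_apply D hh, e]
  refine hD.pos _ ⟨(hch _).2 ?_, ?_⟩
  · intro G hG H hH _
    rw [mem_coe, mem_subtype] at hG hH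
    exact htc.total hG hH
  · rw [card_subtype, filter_true_of_mem ht, hN]

omit [Fintype Φ] [Fintype {G : Φ // G < F}] in
/-- A nonface has two incomparable elements. -/
lemma exists_incomp {c : Finset {G : Φ // G < F}}
    (hc : ¬ IsChain (· ≤ ·) (c : Set {G : Φ // G < F})) :
    ∃ G ∈ c, ∃ H ∈ c, G ≠ H ∧ ¬ G ≤ H ∧ ¬ H ≤ G := by
  by_contra hcon
  push Not at hcon
  refine hc fun G hG H hH hne => ?_
  by_cases h1 : G ≤ H
  · exact Or.inl h1
  · exact Or.inr (hcon G hG H hH hne h1)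

omit [Fintype Φ] [Fintype {G : Φ // G < F}] in
/-- A functional which satisfies the incomparability relations kills the monomials of
nonchains. -/
lemma kill_mon {m : ℕ} {L : Fn Φ}
    (h1 : ∀ G H, G < F → H < F → ¬ G ≤ H → ¬ H ≤ G → ∀ q ∈ low F,
      (X G * (X H * q)).IsHomogeneous m → L (X G * (X H * q)) = 0)
    {d : {G : Φ // G < F} →₀ ℕ} (hd : d.degree = m)
    (hc : ¬ IsChain (· ≤ ·) (d.support : Set {G : Φ // G < F})) :
    L (rho F (monomial d 1)) = 0 := by
  classical
  obtain ⟨G, hG, H, hH, hne, hGH, hHG⟩ := exists_incomp hc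
  rw [Finsupp.mem_support_iff] at hG hH
  obtain ⟨d', rfl⟩ : ∃ d', d = Finsupp.single G 1 + (Finsupp.single H 1 + d') := by
    refine ⟨d - (Finsupp.single G 1 + Finsupp.single H 1), ?_⟩
    rw [← add_assoc, add_tsub_cancel_of_le]
    intro K
    rw [Finsupp.add_apply]
    by_cases hKG : K = G
    · subst hKG
      rw [Finsupp.single_eq_same, Finsupp.single_eq_of_ne hne]
      omega
    · by_cases hKH : K = H
      · subst hKH
        rw [Finsupp.single_eq_same, Finsupp.single_eq_of_ne hKG]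
        omega
      · rw [Finsupp.single_eq_of_ne hKG, Finsupp.single_eq_of_ne hKH]
        omega
  have e : (monomial (Finsupp.single G 1 + (Finsupp.single H 1 + d')) (1 : ℝ)) =
      X G * (X H * monomial d' 1) := by
    rw [X, X, monomial_mul, monomial_mul, one_mul, one_mul]
  have hhom : (rho F (monomial (Finsupp.single G 1 + (Finsupp.single H 1 + d')) (1 : ℝ))).IsHomogeneous m :=
    rho_homog (isHomogeneous_monomial _ hd)
  rw [e, map_mul (rho F), map_mul (rho F), rho_X, rho_X] at hhom ⊢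
  exact h1 G.1 H.1 G.2 H.2 hGH hHG _ (rho_low _) hhom

/-- A functional which satisfies the linear relations kills `lin a y * q`. -/
lemma kill_lin (hUW : ∀ y : U, ∃ x ∈ WF, one x = 0 ∧ ∀ G : {G : Φ // G < F}, a G y = - l G.1 x)
    {m : ℕ} {L : Fn Φ}
    (h2 : ∀ x ∈ WF, one x = 0 → ∀ q ∈ low F, (th l F x * q).IsHomogeneous m →
      L (th l F x * q) = 0) (y : U) {n : ℕ} {q : MvPolynomial {G : Φ // G < F} ℝ}
    (hn : n + 1 = m) (hq : q.IsHomogeneous n) : L (rho F (S.lin a y * q)) = 0 := by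
  obtain ⟨x, hx, hx1, hxy⟩ := hUW y
  rw [lin_eq hxy, neg_mul, map_neg, map_neg, neg_eq_zero, map_mul (rho F), rho_pi (th_mem_low l F x)]
  refine h2 x hx hx1 _ (rho_low q) ?_
  rw [← hn, add_comm]
  exact (th_homog l F x).mul (rho_homog hq)

omit [Fintype Φ] [Fintype {G : Φ // G < F}] in
/-- Faces have at most `N` elements. -/
lemma card_face_le [FiniteDimensional ℝ U] (hS : S.Simple a h)
    (hfin : Module.finrank ℝ U = N) {c : Finset {G : Φ // G < F}} (hc : S.IsFace a h c) :
    c.card ≤ N := by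
  classical
  obtain ⟨x, hx, hx1⟩ := hc
  have h1 := hS.ind x hx
  have h2 := h1.comp (fun j : c => (⟨j.1, hx1 j.1 j.2⟩ : {j // a j x = h j}))
    (fun i j hij => Subtype.ext (by simpa using hij))
  have h3 := h2.fintype_card_le_finrank
  rwa [Fintype.card_coe, Subspace.dual_finrank_eq, hfin] at h3

theorem loc_pd [FiniteDimensional ℝ U] (hPDS : S.Stmt_PDS)
    (hS : S.Simple a h) (hfin : Module.finrank ℝ U = N)
    (hch : ∀ c : Finset {G : Φ // G < F}, S.IsFace a h c ↔
      IsChain (· ≤ ·) (c : Set {G : Φ // G < F}))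
    (hD : S.IsDeg a h N D)
    (hUW : ∀ y : U, ∃ x ∈ WF, one x = 0 ∧ ∀ G : {G : Φ // G < F}, a G y = - l G.1 x)
    (m : ℕ) (L : Fn Φ)
    (h1 : ∀ G H, G < F → H < F → ¬ G ≤ H → ¬ H ≤ G → ∀ q ∈ low F,
      (X G * (X H * q)).IsHomogeneous m → L (X G * (X H * q)) = 0)
    (h2 : ∀ x ∈ WF, one x = 0 → ∀ q ∈ low F, (th l F x * q).IsHomogeneous m →
      L (th l F x * q) = 0) :
    ∃ z ∈ low F, z.IsHomogeneous (N - m) ∧
      ∀ q ∈ low F, q.IsHomogeneous m → L q = ext F N D (z * q) := by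
  obtain ⟨E, hEa⟩ : ∃ E : MvPolynomial {G : Φ // G < F} ℝ →ₗ[ℝ] ℝ, ∀ q, E q = L (rho F q) :=
    ⟨L ∘ₗ (rho F).toLinearMap, fun q => rfl⟩
  have hE1 : ∀ d : {G : Φ // G < F} →₀ ℕ, d.degree = m → ¬ S.IsFace a h d.support →
      E (monomial d 1) = 0 := fun d hd hdf => by
    rw [hEa]
    exact kill_mon h1 hd (by rwa [hch] at hdf)
  have hE2 : S.LinK a m E := fun y n q hn hq => by
    rw [hEa]
    exact kill_lin hUW h2 y hn hq
  obtain ⟨k1, k2⟩ := hPDS U {G : Φ // G < F} a h N D hS hfin hD m E hE1 hE2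
  rcases le_or_gt m N with hmN | hmN
  · obtain ⟨z, hz, hzu⟩ := k2 (N - m) (by omega)
    refine ⟨rho F z, rho_low z, rho_homog hz, fun q hq hqm => ?_⟩
    obtain ⟨q', rfl⟩ := exists_rho hq
    have hq' : q'.IsHomogeneous m := by
      have := pi_homog (F := F) hqm
      rwa [pi_rho] at this
    rw [ext_apply D (by
      have := (rho_homog hz).mul hqm
      rwa [Nat.sub_add_cancel hmN] at this), map_mul (pi F), pi_rho, pi_rho, ← hEa]
    exact hzu q' hq'
  · refine ⟨0, zero_mem _, isHomogeneous_zero _ _ _, fun q hq hqm => ?_⟩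
    obtain ⟨q', rfl⟩ := exists_rho hq
    have hq' : q'.IsHomogeneous m := by
      have := pi_homog (F := F) hqm
      rwa [pi_rho] at this
    rw [zero_mul, map_zero, ← hEa]
    exact k1 hmN q' hq'

/-! ### Hodge-Riemann relations -/

theorem loc_hr [FiniteDimensional ℝ U] (hFACE : S.Stmt_FACE) (hSHR : ∀ N, S.SHRat N)
    (hS : S.Simple a h) (hfin : Module.finrank ℝ U = N) (hD : S.IsDeg a h N D)
    {e : Φ → ℝ} {t : ℝ} (ht : 0 < t) {x : V}
    (hh : ∀ G : {G : Φ // G < F}, h G = l G.1 x - t * e G.1) :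
    HR (ext F N D) N (et e F + C (1 / t) * th l F x) ∧
      ∀ (G : Φ) (hG : G < F), S.IsFace a h ({⟨G, hG⟩} : Finset {G : Φ // G < F}) →
        HR (mulL (X G) (ext F N D)) (N - 1) (et e F + C (1 / t) * th l F x) := by
  classical
  have hw1 : (et e F + C (1 / t) * th l F x).IsHomogeneous 1 := by
    refine (et_homog e F).add ?_
    have := (isHomogeneous_C Φ (1 / t)).mul (th_homog l F x)
    rwa [zero_add] at this
  have hw : pi F (et e F + C (1 / t) * th l F x) = C (1 / t) * S.om h := by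
    rw [map_add, map_mul, pi_C, pi_et, pi_th, S.om, mul_sum, mul_sum, ← sum_neg_distrib,
      ← sum_add_distrib]
    refine sum_congr rfl fun G _ => ?_
    have e1 : C (e G.1) = C (1 / t) * (C (t * e G.1) : MvPolynomial {G : Φ // G < F} ℝ) := by
      rw [← C_mul]
      congr 1
      field_simp
    rw [hh, C_sub, e1]
    ring
  have hpos : 0 < 1 / t := by positivity
  have hF := hFACE hSHR U {G : Φ // G < F} a h N D hS hfin hD
  refine ⟨?_, fun G hG hGf => ?_⟩
  · refine hr_trn (D := D) (ext_homog D) (fun p hp => ext_apply D hp) hpos hw1 hw ?_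
    have h1 := hF ∅ N (by simp)
    have e1 : S.act (S.mon ∅) D = D := by
      refine LinearMap.ext fun q => ?_
      rw [S.act_apply, S.mon, prod_empty, one_mul]
    rwa [e1] at h1
  · have hN := card_face_le hS hfin hGf
    rw [card_singleton] at hN
    refine hr_trn (D := S.act (X ⟨G, hG⟩) D) (homog_mulL (ext_homog D) (isHomogeneous_X ℝ G) hN)
      (fun p hp => ?_) hpos hw1 hw ?_
    · rw [mulL_apply, ext_apply D, map_mul (pi F), pi_X hG, S.act_apply]
      have := (isHomogeneous_X ℝ G).mul hp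
      rwa [show 1 + (N - 1) = N by omega] at this
    · have h1 := hF {⟨G, hG⟩} (N - 1) (by rw [card_singleton]; omega)
      rwa [S.mon, prod_singleton] at h1

end

end Pool.Agent.KF.T
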