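import Pool.Agent.KF.T.Indep
import Pool.Agent.KF.S.Stmts
import Pool.Agent.Lib_helper40.Kal.Half

/-!
# The family of a face in its span
-/

open Finset Submodule Filter Topology

namespace Pool.Agent.KF.T

open Pool.Agent.Lib_helper40.Kal

variable {ι : Type} [DecidableEq ι] {V : Type} [AddCommGroup V] [Module ℝ V]

/-- The nonempty faces. -/
abbrev Fc (p : ι → V) (s : Finset ι) : Type := {F : Finset ι // IsFace p s F ∧ F.Nonempty}

noncomputable instance (p : ι → V) (s : Finset ι) : Fintype (Fc p s) := by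
  classical
  exact Fintype.subtype (s.powerset.filter fun F => IsFace p s F ∧ F.Nonempty)
    (fun F => by
      rw [mem_filter, mem_powerset]
      exact ⟨fun h => h.2, fun h => ⟨h.1.subset, h⟩⟩)

section

variable (p : ι → V) (s F : Finset ι)

/-- The height functional. -/
noncomputable def one : V →ₗ[ℝ] ℝ := uf p s ∅

/-- The span of a face. -/
abbrev W : Submodule ℝ V := span ℝ (p '' (F : Set ι))

open Classical in
/-- The normalised family of a face in its span. -/
noncomputable def pf : ι → W p F := fun i =>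
  if h : i ∈ F then ⟨(one p s (p i))⁻¹ • p i, smul_mem _ _ (subset_span ⟨i, h, rfl⟩)⟩ else 0

/-- The height functional on the span. -/
noncomputable def oneF : W p F →ₗ[ℝ] ℝ := (one p s).domRestrict (W p F)

/-- The functionals on the span. -/
noncomputable def uF (G : Finset ι) : W p F →ₗ[ℝ] ℝ := (uf p s G).domRestrict (W p F)

end

variable {p : ι → V} {s F : Finset ι}

lemma one_pos' (h0 : IsFace p s ∅) {i : ι} (hi : i ∈ s) : 0 < one p s (p i) :=
  uf_pos h0 hi (notMem_empty i)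

lemma pf_apply {i : ι} (hi : i ∈ F) : (pf p s F i : V) = (one p s (p i))⁻¹ • p i := by
  rw [pf, dif_pos hi]

lemma dom_pf {i : ι} (hi : i ∈ F) (l : V →ₗ[ℝ] ℝ) :
    l.domRestrict (W p F) (pf p s F i) = (one p s (p i))⁻¹ * l (p i) := by
  rw [LinearMap.domRestrict_apply, pf_apply hi, map_smul, smul_eq_mul]

lemma dom_pf_zero {i : ι} (h0 : IsFace p s ∅) (hF : IsFace p s F) (hi : i ∈ F)
    (l : V →ₗ[ℝ] ℝ) : l.domRestrict (W p F) (pf p s F i) = 0 ↔ l (p i) = 0 := by
  have h1 := inv_pos.2 (one_pos' h0 (hF.subset hi))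
  rw [dom_pf hi]
  exact mul_eq_zero_iff_left h1.ne'

lemma dom_pf_pos {i : ι} (h0 : IsFace p s ∅) (hF : IsFace p s F) (hi : i ∈ F)
    (l : V →ₗ[ℝ] ℝ) : 0 < l.domRestrict (W p F) (pf p s F i) ↔ 0 < l (p i) := by
  have h1 := inv_pos.2 (one_pos' h0 (hF.subset hi))
  rw [dom_pf hi]
  exact mul_pos_iff_of_pos_left h1

lemma isFace_pf (h0 : IsFace p s ∅) (hF : IsFace p s F) {G : Finset ι} :
    IsFace (pf p s F) F G ↔ IsFace p s G ∧ G ⊆ F := by
  rw [← isFace_restrict hF]
  constructor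
  · rintro ⟨hG, l, l0, l1⟩
    obtain ⟨l', rfl⟩ := LinearMap.exists_extend l
    refine ⟨hG, l', fun i hi => ?_, fun i hi hiG => ?_⟩
    · exact (dom_pf_zero h0 hF (hG hi) l').1 (l0 i hi)
    · exact (dom_pf_pos h0 hF hi l').1 (l1 i hi hiG)
  · rintro ⟨hG, l, l0, l1⟩
    refine ⟨hG, l.domRestrict (W p F), fun i hi => ?_, fun i hi hiG => ?_⟩
    · exact (dom_pf_zero h0 hF (hG hi) l).2 (l0 i hi)
    · exact (dom_pf_pos h0 hF hi l).2 (l1 i hi hiG)

lemma mem_FF_pf (h0 : IsFace p s ∅) (hF : IsFace p s F) {G : Finset ι} :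
    G ∈ FF (pf p s F) F ↔ IsFace p s G ∧ G.Nonempty ∧ G ⊂ F := by
  rw [mem_FF, isFace_pf h0 hF, ssubset_iff_subset_ne]
  tauto

theorem sup_pf (h0 : IsFace p s ∅) (hF : IsFace p s F) :
    Sup (pf p s F) F (oneF p s F) (uF p s F) where
  top := by
    rw [eq_top_iff]
    rintro ⟨x, hx⟩ -
    have h1 : (Submodule.map (W p F).subtype (span ℝ (pf p s F '' (F : Set ι)))) = W p F := by
      refine le_antisymm (map_subtype_le _ _) ?_
      rw [span_le]
      rintro _ ⟨i, hi, rfl⟩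
      refine ⟨one p s (p i) • pf p s F i, smul_mem _ _ (subset_span ⟨i, hi, rfl⟩), ?_⟩
      have h1 := one_pos' h0 (hF.subset hi)
      rw [map_smul, Submodule.subtype_apply, pf_apply hi, smul_smul, mul_inv_cancel₀ h1.ne',
        one_smul]
    obtain ⟨y, hy, hyx⟩ : x ∈ Submodule.map (W p F).subtype
      (span ℝ (pf p s F '' (F : Set ι))) := by rw [h1]; exact hx
    have : y = ⟨x, hx⟩ := Subtype.ext hyx
    rwa [← this]
  one := fun i hi => by
    rw [oneF, dom_pf hi]
    exact inv_mul_cancel₀ (one_pos' h0 (hF.subset hi)).ne'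
  zero := fun G hG i hi => by
    obtain ⟨hG1, -, hG2⟩ := (mem_FF_pf h0 hF).1 hG
    rw [uF, dom_pf_zero h0 hF (hG2.1 hi)]
    exact uf_zero hG1 hi
  pos := fun G hG i hi hiG => by
    obtain ⟨hG1, -, hG2⟩ := (mem_FF_pf h0 hF).1 hG
    rw [uF, dom_pf_pos h0 hF hi]
    exact uf_pos hG1 (hF.subset hi) hiG

/-! ### The point of a face -/

/-- The point of a face. -/
noncomputable def ptF (p : ι → V) (s F : Finset ι) : W p F :=
  (F.card : ℝ)⁻¹ • ∑ i ∈ F, pf p s F i

lemma ptF_one (h0 : IsFace p s ∅) (hF : IsFace p s F) (hne : F.Nonempty) :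
    oneF p s F (ptF p s F) = 1 := by
  have hc : (F.card : ℝ) ≠ 0 := by exact_mod_cast hne.card_pos.ne'
  rw [ptF, map_smul, map_sum, sum_congr rfl fun i hi => (sup_pf h0 hF).one i hi]
  simp [hc]

end Pool.Agent.KF.T
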