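import Pool.Agent.KF.G.Basic
import Pool.Agent.KF.S.Stmts

/-!
# Transport of functionals between the polynomials in all faces and in the faces below `F`
-/

open Finset

namespace Pool.Agent.KF.T

open MvPolynomial Pool.Agent.KF.G

section

variable {Φ : Type} [PartialOrder Φ]

open Classical in
/-- The projection to the faces below `F`. -/
noncomputable def pi (F : Φ) : MvPolynomial Φ ℝ →ₐ[ℝ] MvPolynomial {G : Φ // G < F} ℝ :=
  aeval fun G => if h : G < F then X ⟨G, h⟩ else 0

/-- The inclusion of the faces below `F`. -/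
noncomputable def rho (F : Φ) : MvPolynomial {G : Φ // G < F} ℝ →ₐ[ℝ] MvPolynomial Φ ℝ :=
  rename Subtype.val

lemma pi_X {F G : Φ} (h : G < F) : pi F (X G) = X ⟨G, h⟩ := by
  rw [pi, aeval_X, dif_pos h]

lemma pi_X' {F G : Φ} (h : ¬ G < F) : pi F (X G) = 0 := by
  rw [pi, aeval_X, dif_neg h]

lemma pi_C (F : Φ) (a : ℝ) : pi F (C a) = C a := (pi F).commutes a

lemma rho_X {F : Φ} (G : {G : Φ // G < F}) : rho F (X G) = X G.1 := rename_X _ _

lemma pi_rho {F : Φ} (q : MvPolynomial {G : Φ // G < F} ℝ) : pi F (rho F q) = q := by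
  have : (pi F).comp (rho F) = AlgHom.id ℝ _ := by
    refine algHom_ext fun G => ?_
    rw [AlgHom.comp_apply, rho_X, pi_X G.2, AlgHom.id_apply]
  exact DFunLike.congr_fun this q

lemma exists_rho {F : Φ} {q : MvPolynomial Φ ℝ} (hq : q ∈ low F) : ∃ q', rho F q' = q := by
  rw [low, supported_eq_range_rename, AlgHom.mem_range] at hq
  exact hq

lemma rho_low {F : Φ} (q : MvPolynomial {G : Φ // G < F} ℝ) : rho F q ∈ low F := by
  rw [low, supported_eq_range_rename, AlgHom.mem_range]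
  exact ⟨q, rfl⟩

lemma rho_pi {F : Φ} {q : MvPolynomial Φ ℝ} (hq : q ∈ low F) : rho F (pi F q) = q := by
  obtain ⟨q', rfl⟩ := exists_rho hq
  rw [pi_rho]

lemma rho_homog {F : Φ} {n : ℕ} {q : MvPolynomial {G : Φ // G < F} ℝ} (hq : q.IsHomogeneous n) :
    (rho F q).IsHomogeneous n := hq.rename_isHomogeneous

lemma pi_homog {F : Φ} {n : ℕ} {q : MvPolynomial Φ ℝ} (hq : q.IsHomogeneous n) :
    (pi F q).IsHomogeneous n := by
  classical
  have := hq.aeval (R := ℝ) (n := 1) (fun G => if h : G < F then (X ⟨G, h⟩ :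
    MvPolynomial {G : Φ // G < F} ℝ) else 0) (fun G => by
      split_ifs with h
      · exact isHomogeneous_X _ _
      · exact isHomogeneous_zero _ _ _)
  rw [one_mul] at this
  rw [pi]
  exact this

/-! ### The functional -/

/-- The extension of a functional to all faces, in degree `n`. -/
noncomputable def ext (F : Φ) (n : ℕ) (D : MvPolynomial {G : Φ // G < F} ℝ →ₗ[ℝ] ℝ) : Fn Φ :=
  D ∘ₗ homogeneousComponent n ∘ₗ (pi F).toLinearMap

lemma ext_apply {F : Φ} {n : ℕ} (D : MvPolynomial {G : Φ // G < F} ℝ →ₗ[ℝ] ℝ)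
    {p : MvPolynomial Φ ℝ} (hp : p.IsHomogeneous n) : ext F n D p = D (pi F p) := by
  change D (homogeneousComponent n (pi F p)) = _
  rw [homogeneousComponent_of_mem (pi_homog hp), if_pos rfl]

lemma ext_homog {F : Φ} {n : ℕ} (D : MvPolynomial {G : Φ // G < F} ℝ →ₗ[ℝ] ℝ) :
    Homog (ext F n D) n := by
  intro m p hp hm
  change D (homogeneousComponent n (pi F p)) = _
  rw [homogeneousComponent_of_mem (pi_homog hp), if_neg hm.symm, map_zero]

/-- A functional vanishes on all multiples of `g`, if it does in the right degree. -/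
lemma ext_zero {F : Φ} {n k : ℕ} (D : MvPolynomial {G : Φ // G < F} ℝ →ₗ[ℝ] ℝ)
    {g : MvPolynomial Φ ℝ} (hg : g.IsHomogeneous k)
    (h : ∀ (m : ℕ) (q : MvPolynomial {G : Φ // G < F} ℝ), k + m = n → q.IsHomogeneous m →
      D (pi F g * q) = 0) (q : MvPolynomial Φ ℝ) : ext F n D (g * q) = 0 := by
  refine ann_of_homog (ext_homog D) hg (fun m q hq hm => ?_) q
  rw [ext_apply D (by rw [← hm]; exact hg.mul hq), map_mul (pi F)]
  exact h m _ hm (pi_homog hq)

/-- Transport of the Hodge-Riemann relations. -/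
lemma hr_trn {F : Φ} {n : ℕ} {L : Fn Φ} {D : MvPolynomial {G : Φ // G < F} ℝ →ₗ[ℝ] ℝ}
    (hL0 : Homog L n) (hL : ∀ p : MvPolynomial Φ ℝ, p.IsHomogeneous n → L p = D (pi F p))
    {w : MvPolynomial Φ ℝ} {w' : MvPolynomial {G : Φ // G < F} ℝ} {c : ℝ} (hc : 0 < c)
    (hw1 : w.IsHomogeneous 1) (hw : pi F w = C c * w') (h : S.HR D n w') : HR L n w := by
  intro i p hp hin hAnn hnot
  obtain ⟨r, hr⟩ : ∃ r, r = n - 2 * i := ⟨_, rfl⟩
  rw [← hr] at hAnn ⊢
  have hwp : ∀ k, pi F (w ^ k) = C (c ^ k) * w' ^ k := by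
    intro k
    rw [map_pow, hw, mul_pow, ← C_pow]
  have hD : ∀ (a : ℝ) q, D (C a * q) = a * D q := by
    intro a q
    rw [C_mul', map_smul, smul_eq_mul]
  have hPrim : S.Prim D i r w' (pi F p) := by
    intro k q hk hq
    have h1 := hAnn (rho F q)
    rw [hL _ (by
      have e : n = 1 * (r + 1) + i + k := by omega
      rw [e]
      exact ((hw1.pow _).mul hp).mul (rho_homog hq)), map_mul (pi F), map_mul (pi F), pi_rho, hwp] at h1
    have e : C (c ^ (r + 1)) * w' ^ (r + 1) * pi F p * q =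
      C (c ^ (r + 1)) * (pi F p * w' ^ (r + 1) * q) := by ring
    rw [e, hD] at h1
    exact (mul_eq_zero.1 h1).resolve_left (by positivity)
  obtain ⟨h1, h2⟩ := h i r (by omega) (pi F p) (pi_homog hp) hPrim
  have hLv : L (p * (w ^ r * p)) = c ^ r * D (pi F p * w' ^ r * pi F p) := by
    rw [hL _ (by
      have e : n = i + (1 * r + i) := by omega
      rw [e]
      exact hp.mul ((hw1.pow _).mul hp)), map_mul (pi F), map_mul (pi F), hwp]
    have e : pi F p * (C (c ^ r) * w' ^ r * pi F p) =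
      C (c ^ r) * (pi F p * w' ^ r * pi F p) := by ring
    rw [e, hD]
  have hne : D (pi F p * w' ^ r * pi F p) ≠ 0 := by
    intro h0
    refine hnot (ann_of_homog hL0 hp fun m q hq hm => ?_)
    rw [hL _ (by rw [← hm]; exact hp.mul hq), map_mul (pi F)]
    refine h2 h0 _ ?_
    have e : i + r = m := by omega
    rw [e]
    exact pi_homog hq
  rw [hLv]
  have h3 : (-1 : ℝ) ^ i * D (pi F p * w' ^ r * pi F p) ≠ 0 :=
    mul_ne_zero (pow_ne_zero _ (by norm_num)) hne
  have h4 := lt_of_le_of_ne h1 h3.symm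
  have h5 : 0 < c ^ r := by positivity
  have := mul_pos h5 h4
  linarith

end

end Pool.Agent.KF.T
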