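import Pool.Agent.Lib_helper40.Kal.Fam2

/-!
# Truncation of a polytope

`p : ι → V` restricted to `s` is the family of the vertices of a polytope in the slice `one = 1`,
`FF p s` the set of its proper nonempty faces, `u F` a functional which is nonnegative on the
polytope and zero exactly on the face `F`.
-/

open Finset Submodule Filter Topology

namespace Pool.Agent.KF.T

open Pool.Agent.Lib_helper40.Kal

universe u v

variable {ι : Type u} [DecidableEq ι] {V : Type v} [AddCommGroup V] [Module ℝ V]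

open Classical in
/-- The proper nonempty faces. -/
noncomputable def FF (p : ι → V) (s : Finset ι) : Finset (Finset ι) :=
  s.powerset.filter fun F => IsFace p s F ∧ F.Nonempty ∧ F ≠ s

lemma mem_FF {p : ι → V} {s F : Finset ι} :
    F ∈ FF p s ↔ IsFace p s F ∧ F.Nonempty ∧ F ≠ s := by
  classical
  rw [FF, mem_filter, mem_powerset]
  exact ⟨fun h => h.2, fun h => ⟨h.1.subset, h⟩⟩

/-- Supporting functionals of a polytope. -/
structure Sup (p : ι → V) (s : Finset ι) (one : V →ₗ[ℝ] ℝ) (u : Finset ι → V →ₗ[ℝ] ℝ) :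
    Prop where
  top : span ℝ (p '' (s : Set ι)) = ⊤
  one : ∀ i ∈ s, one (p i) = 1
  zero : ∀ F ∈ FF p s, ∀ i ∈ F, u F (p i) = 0
  pos : ∀ F ∈ FF p s, ∀ i ∈ s, i ∉ F → 0 < u F (p i)

section

variable {p : ι → V} {s : Finset ι} {one : V →ₗ[ℝ] ℝ} {u : Finset ι → V →ₗ[ℝ] ℝ}

lemma FF_subset {F : Finset ι} (hF : F ∈ FF p s) : F ⊆ s := (mem_FF.1 hF).1.subset

lemma FF_ssubset {F : Finset ι} (hF : F ∈ FF p s) : F ⊂ s :=
  (FF_subset hF).ssubset_of_ne (mem_FF.1 hF).2.2

lemma Sup.ext (h : Sup p s one u) {f g : V →ₗ[ℝ] ℝ} (hfg : ∀ i ∈ s, f (p i) = g (p i)) :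
    f = g := by
  refine LinearMap.ext_on h.top ?_
  rintro _ ⟨i, hi, rfl⟩
  exact hfg i hi

lemma Sup.nonneg' (h : Sup p s one u) {F : Finset ι} (hF : F ∈ FF p s) {i : ι} (hi : i ∈ s) :
    0 ≤ u F (p i) := by
  by_cases hiF : i ∈ F
  · exact (h.zero F hF i hiF).ge
  · exact (h.pos F hF i hi hiF).le

lemma Sup.nonempty (h : Sup p s one u) {X : V} (hX : 0 < one X) : s.Nonempty := by
  by_contra hs
  rw [not_nonempty_iff_eq_empty] at hs
  have : one = 0 := h.ext fun i hi => by simp [hs] at hi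
  rw [this] at hX
  exact lt_irrefl _ hX

/-- A functional which is nonnegative on the vertices is nonnegative on the region defined by the
supporting functionals. -/
theorem Sup.nonneg (h : Sup p s one u) {X : V} (hX1 : 0 < one X)
    (hX : ∀ F ∈ FF p s, 0 ≤ u F X) {g : V →ₗ[ℝ] ℝ} (hg : ∀ i ∈ s, 0 ≤ g (p i)) : 0 ≤ g X := by
  by_contra hgX
  rw [not_le] at hgX
  obtain ⟨n, hn⟩ : ∃ n, s.card - (s.filter fun i => g (p i) = 0).card = n := ⟨_, rfl⟩
  induction n using Nat.strong_induction_on generalizing g with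
  | _ n ih =>
    by_cases hW : span ℝ (p '' ((s.filter fun i => g (p i) = 0 : Finset ι) : Set ι)) ⊔
        span ℝ {X} = ⊤
    · obtain ⟨v, hv0, hvX, i, hi, hvi⟩ : ∃ v : V →ₗ[ℝ] ℝ, (∀ i ∈ s, g (p i) = 0 → v (p i) = 0) ∧
          0 ≤ v X ∧ ∃ i ∈ s, 0 < v (p i) := by
        rcases (s.filter fun i => g (p i) = 0).eq_empty_or_nonempty with hZ | hZ
        · obtain ⟨i, hi⟩ := h.nonempty hX1
          refine ⟨one, fun j hj hgj => ?_, hX1.le, i, hi, by rw [h.one i hi]; exact one_pos⟩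
          exact absurd (mem_filter.2 ⟨hj, hgj⟩) (by rw [hZ]; exact notMem_empty _)
        · have hne : (s.filter fun i => g (p i) = 0) ≠ s := by
            intro he
            have : g = 0 := h.ext fun i hi => by
              rw [← he] at hi
              exact (mem_filter.1 hi).2
            rw [this] at hgX
            exact lt_irrefl _ hgX
          have hF : (s.filter fun i => g (p i) = 0) ∈ FF p s :=
            mem_FF.2 ⟨isFace_of_nonneg hg, hZ, hne⟩
          obtain ⟨i, hi, hi'⟩ : ∃ i ∈ s, i ∉ (s.filter fun i => g (p i) = 0) := by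
            by_contra hcon
            push Not at hcon
            exact hne ((filter_subset _ _).antisymm hcon)
          exact ⟨u _, fun j hj hgj => h.zero _ hF j (mem_filter.2 ⟨hj, hgj⟩), hX _ hF, i, hi,
            h.pos _ hF i hi hi'⟩
      have hz : v X • g - g X • v = 0 := by
        rw [← LinearMap.ker_eq_top, eq_top_iff, ← hW, sup_le_iff, span_le, span_le]
        constructor
        · rintro _ ⟨j, hj, rfl⟩
          have hj' := mem_filter.1 (mem_coe.1 hj)
          simp [hj'.2, hv0 j hj'.1 hj'.2]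
        · rintro _ rfl
          simp [mul_comm]
      have h1 : v X * g (p i) - g X * v (p i) = 0 := by
        have := LinearMap.congr_fun hz (p i)
        simpa using this
      have h2 := mul_nonneg hvX (hg i hi)
      have h3 := mul_neg_of_neg_of_pos hgX hvi
      linarith
    · obtain ⟨m, hm, hker⟩ := Submodule.exists_le_ker_of_lt_top _ (lt_top_iff_ne_top.2 hW)
      have hm0 : ∀ i ∈ s, g (p i) = 0 → m (p i) = 0 := by
        intro i hi hgi
        have : p i ∈ span ℝ (p '' ((s.filter fun i => g (p i) = 0 : Finset ι) : Set ι)) :=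
          subset_span ⟨i, mem_coe.2 (mem_filter.2 ⟨hi, hgi⟩), rfl⟩
        exact hker (mem_sup_left this)
      have hmX : m X = 0 := hker (mem_sup_right (mem_span_singleton_self X))
      -- choose the sign
      obtain ⟨m', hm0', hmX', i, hi, hmi⟩ : ∃ m' : V →ₗ[ℝ] ℝ,
          (∀ i ∈ s, g (p i) = 0 → m' (p i) = 0) ∧ m' X = 0 ∧ ∃ i ∈ s, 0 < m' (p i) := by
        obtain ⟨i, hi, hmi⟩ : ∃ i ∈ s, m (p i) ≠ 0 := by
          by_contra hcon
          push Not at hcon
          exact hm (h.ext fun i hi => by rw [hcon i hi]; rfl)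
        rcases lt_or_gt_of_ne hmi with hlt | hgt
        · refine ⟨-m, fun j hj hgj => ?_, ?_, i, hi, ?_⟩
          · rw [LinearMap.neg_apply, hm0 j hj hgj, neg_zero]
          · rw [LinearMap.neg_apply, hmX, neg_zero]
          · rw [LinearMap.neg_apply]
            linarith
        · exact ⟨m, hm0, hmX, i, hi, hgt⟩
      obtain ⟨j, hj, hmin⟩ := (s.filter fun i => 0 < m' (p i)).exists_min_image
        (fun i => g (p i) / m' (p i)) ⟨i, mem_filter.2 ⟨hi, hmi⟩⟩
      obtain ⟨hjs, hmj⟩ := mem_filter.1 hj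
      set c := g (p j) / m' (p j) with hc
      have hc0 : 0 ≤ c := div_nonneg (hg j hjs) hmj.le
      have hgj : g (p j) ≠ 0 := fun h0 => hmj.ne' (hm0' j hjs h0)
      have hg' : ∀ i ∈ s, 0 ≤ (g - c • m') (p i) := by
        intro k hk
        rw [LinearMap.sub_apply, LinearMap.smul_apply, smul_eq_mul]
        rcases le_or_gt (m' (p k)) 0 with hle | hlt
        · have := mul_nonpos_of_nonneg_of_nonpos hc0 hle
          linarith [hg k hk]
        · have := hmin k (mem_filter.2 ⟨hk, hlt⟩)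
          rw [le_div_iff₀ hlt] at this
          linarith
      have hgX' : (g - c • m') X < 0 := by
        rw [LinearMap.sub_apply, LinearMap.smul_apply, hmX', smul_zero, sub_zero]
        exact hgX
      have hlt : (s.filter fun i => g (p i) = 0).card <
          (s.filter fun i => (g - c • m') (p i) = 0).card := by
        refine card_lt_card ⟨fun k hk => ?_, fun hsub => ?_⟩
        · obtain ⟨hks, hgk⟩ := mem_filter.1 hk
          refine mem_filter.2 ⟨hks, ?_⟩
          rw [LinearMap.sub_apply, LinearMap.smul_apply, hgk, hm0' k hks hgk, smul_zero, sub_zero]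
        · refine hgj (mem_filter.1 (hsub (mem_filter.2 ⟨hjs, ?_⟩))).2
          rw [LinearMap.sub_apply, LinearMap.smul_apply, smul_eq_mul, hc,
            div_mul_cancel₀ _ hmj.ne', sub_self]
      refine ih _ ?_ hg' hgX' rfl
      have h1 : (s.filter fun i => (g - c • m') (p i) = 0).card ≤ s.card :=
        card_le_card (filter_subset _ _)
      omega

/-- The recession cone of the region is zero. -/
theorem Sup.recession (h : Sup p s one u) {x : V} (hx1 : one x = 0) (hx : ∀ F ∈ FF p s, 0 ≤ u F x)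
    (hne : s.Nonempty) : x = 0 := by
  -- every functional vanishes at `x`
  have hg : ∀ g : V →ₗ[ℝ] ℝ, (∀ i ∈ s, 0 ≤ g (p i)) → 0 ≤ g x := by
    intro g hg
    obtain ⟨i, hi⟩ := hne
    by_contra hcon
    rw [not_le] at hcon
    -- at `p i + t x`
    have h1 : ∀ t : ℝ, 0 ≤ t → 0 ≤ g (p i + t • x) := by
      intro t ht
      refine h.nonneg ?_ (fun F hF => ?_) hg
      · rw [map_add, map_smul, hx1, smul_zero, add_zero, h.one i hi]
        exact one_pos
      · rw [map_add, map_smul, smul_eq_mul]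
        exact add_nonneg (h.nonneg' hF hi) (mul_nonneg ht (hx F hF))
    have h2 := h1 ((g (p i) + 1) / (-g x))
      (div_nonneg (add_nonneg (hg i hi) zero_le_one) (by linarith))
    rw [map_add, map_smul, smul_eq_mul] at h2
    have h3 : (g (p i) + 1) / (-g x) * g x = -(g (p i) + 1) := by
      rw [div_neg, neg_mul, div_mul_cancel₀ _ hcon.ne]
    rw [h3] at h2
    linarith
  have hall : ∀ φ : V →ₗ[ℝ] ℝ, 0 ≤ φ x := by
    intro φ
    obtain ⟨M, hM⟩ := exists_bound s (fun i => -φ (p i))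
    have := hg (φ + M • one) fun i hi => by
      rw [LinearMap.add_apply, LinearMap.smul_apply, h.one i hi, smul_eq_mul, mul_one]
      linarith [hM i hi]
    rwa [LinearMap.add_apply, LinearMap.smul_apply, hx1, smul_zero, add_zero] at this
  by_contra hx0
  obtain ⟨φ, -, hφ⟩ := exists_dual_of_notMem (W := ⊥) (x := x) (by rwa [Submodule.mem_bot])
  have h1 := hall φ
  have h2 := hall (-φ)
  rw [LinearMap.neg_apply] at h2
  exact hφ (by linarith)

/-! ### Constants -/

/-- The sum of the vertices. -/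
def q (p : ι → V) (H : Finset ι) : V := ∑ i ∈ H, p i

lemma Sup.q_zero (h : Sup p s one u) {F H : Finset ι} (hF : F ∈ FF p s) (hH : H ⊆ F) :
    u F (q p H) = 0 := by
  rw [q, map_sum]
  exact sum_eq_zero fun i hi => h.zero F hF i (hH hi)

lemma Sup.q_nonneg (h : Sup p s one u) {F H : Finset ι} (hF : F ∈ FF p s) (hH : H ⊆ s) :
    0 ≤ u F (q p H) := by
  rw [q, map_sum]
  exact sum_nonneg fun i hi => h.nonneg' hF (hH hi)

lemma Sup.q_pos (h : Sup p s one u) {F H : Finset ι} (hF : F ∈ FF p s) (hH : H ⊆ s)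
    (hHF : ¬ H ⊆ F) : 0 < u F (q p H) := by
  rw [q, map_sum]
  obtain ⟨i, hi, hiF⟩ := not_subset.1 hHF
  exact sum_pos' (fun i hi => h.nonneg' hF (hH hi)) ⟨i, hi, h.pos F hF i (hH hi) hiF⟩

lemma Sup.q_one (h : Sup p s one u) {H : Finset ι} (hH : H ⊆ s) : one (q p H) = H.card := by
  rw [q, map_sum, sum_congr rfl fun i hi => h.one i (hH hi)]
  simp

omit [DecidableEq ι] in
lemma exists_const (f : Finset ι → Finset ι → ℝ) (A B : Finset (Finset ι)) :
    ∃ C : ℝ, 1 ≤ C ∧ ∀ a ∈ A, ∀ b ∈ B, f a b ≤ C ∧ (0 < f a b → 1 ≤ C * f a b) := by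
  obtain ⟨M, hM⟩ := ((A ×ˢ B).image fun x => f x.1 x.2).exists_le
  obtain ⟨M', hM'⟩ := ((A ×ˢ B).image fun x => (f x.1 x.2)⁻¹).exists_le
  refine ⟨max 1 (max M M'), le_max_left _ _, fun a ha b hb => ⟨?_, fun h => ?_⟩⟩
  · exact (hM _ (mem_image_of_mem _ (mk_mem_product ha hb))).trans
      ((le_max_left _ _).trans (le_max_right _ _))
  · have h1 := hM' _ (mem_image_of_mem (fun x => (f x.1 x.2)⁻¹) (mk_mem_product ha hb))
    have h2 : (f a b)⁻¹ ≤ max 1 (max M M') := h1.trans ((le_max_right _ _).trans (le_max_right _ _))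
    calc (1 : ℝ) = (f a b)⁻¹ * f a b := (inv_mul_cancel₀ h.ne').symm
      _ ≤ _ := mul_le_mul_of_nonneg_right h2 h.le

/-- The constant of the polytope. -/
def Cst (p : ι → V) (s : Finset ι) (u : Finset ι → V →ₗ[ℝ] ℝ) (C : ℝ) : Prop :=
  1 ≤ C ∧ ∀ F ∈ FF p s, ∀ H ⊆ s, u F (q p H) ≤ C ∧ (0 < u F (q p H) → 1 ≤ C * u F (q p H))

lemma exists_cst : ∃ C, Cst p s u C := by
  obtain ⟨C, h1, h2⟩ := exists_const (fun F H => u F (q p H)) (FF p s) s.powerset
  exact ⟨C, h1, fun F hF H hH => h2 F hF H (mem_powerset.2 hH)⟩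

lemma Cst.le {C : ℝ} (hC : Cst p s u C) {F : Finset ι} (hF : F ∈ FF p s) {i : ι} (hi : i ∈ s) :
    u F (p i) ≤ C := by
  have := (hC.2 F hF {i} (singleton_subset_iff.2 hi)).1
  rwa [q, sum_singleton] at this

lemma Cst.ge {C : ℝ} (hC : Cst p s u C) (h : Sup p s one u) {F : Finset ι} (hF : F ∈ FF p s)
    {i : ι} (hi : i ∈ s) (hiF : i ∉ F) : 1 ≤ C * u F (p i) := by
  have := (hC.2 F hF {i} (singleton_subset_iff.2 hi)).2
  rw [q, sum_singleton] at this
  exact this (h.pos F hF i hi hiF)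

/-! ### Tight sets are chains -/

lemma Sup.inter (h : Sup p s one u) {C : ℝ} (hC : Cst p s u C) {F G : Finset ι}
    (hF : F ∈ FF p s) (hG : G ∈ FF p s) (hK : F ∩ G ∈ FF p s) {X : V} (hX1 : 0 < one X)
    (hX : ∀ F ∈ FF p s, 0 ≤ u F X) : u (F ∩ G) X ≤ C ^ 2 * (u F X + u G X) := by
  have hC0 : 0 ≤ C := zero_le_one.trans hC.1
  have := h.nonneg hX1 hX (g := C ^ 2 • (u F + u G) - u (F ∩ G)) fun i hi => by
    rw [LinearMap.sub_apply, LinearMap.smul_apply, LinearMap.add_apply, smul_eq_mul]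
    have h1 := h.nonneg' hF hi
    have h2 := h.nonneg' hG hi
    by_cases hiK : i ∈ F ∩ G
    · rw [h.zero _ hK i hiK]
      have := mul_nonneg (sq_nonneg C) (add_nonneg h1 h2)
      linarith
    · have h3 := hC.le hK hi
      have h4 : 1 ≤ C * (u F (p i) + u G (p i)) := by
        rw [mem_inter, not_and_or] at hiK
        rcases hiK with hi' | hi'
        · have := hC.ge h hF hi hi'
          nlinarith
        · have := hC.ge h hG hi hi'
          nlinarith
      nlinarith
  rw [LinearMap.sub_apply, LinearMap.smul_apply, LinearMap.add_apply, smul_eq_mul] at this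
  linarith

lemma Sup.disj (h : Sup p s one u) {C : ℝ} (hC : Cst p s u C) {F G : Finset ι}
    (hF : F ∈ FF p s) (hG : G ∈ FF p s) (hK : F ∩ G = ∅) {X : V} (hX1 : 0 < one X)
    (hX : ∀ F ∈ FF p s, 0 ≤ u F X) : one X ≤ C * (u F X + u G X) := by
  have hC0 : 0 ≤ C := zero_le_one.trans hC.1
  have := h.nonneg hX1 hX (g := C • (u F + u G) - one) fun i hi => by
    rw [LinearMap.sub_apply, LinearMap.smul_apply, LinearMap.add_apply, smul_eq_mul, h.one i hi]
    have h1 := h.nonneg' hF hi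
    have h2 := h.nonneg' hG hi
    have hiK : i ∉ F ∩ G := by rw [hK]; exact notMem_empty _
    rw [mem_inter, not_and_or] at hiK
    rcases hiK with hi' | hi'
    · have := hC.ge h hF hi hi'
      nlinarith
    · have := hC.ge h hG hi hi'
      nlinarith
  rw [LinearMap.sub_apply, LinearMap.smul_apply, LinearMap.add_apply, smul_eq_mul] at this
  linarith

lemma inter_mem_FF {F G : Finset ι} (hF : F ∈ FF p s) (hG : G ∈ FF p s)
    (hne : (F ∩ G).Nonempty) : F ∩ G ∈ FF p s := by
  refine mem_FF.2 ⟨(mem_FF.1 hF).1.inter (mem_FF.1 hG).1, hne, fun he => ?_⟩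
  exact (mem_FF.1 hF).2.2 ((FF_subset hF).antisymm (he ▸ inter_subset_left))

/-! ### The points of the truncation -/

/-- `Y` is a point of the truncation in the directions transversal to `H`. -/
def Pt (p : ι → V) (s : Finset ι) (u : Finset ι → V →ₗ[ℝ] ℝ) (e : Finset ι → ℝ) (B : ℝ)
    (c : Finset (Finset ι)) (H : Finset ι) (E : ℝ) (Y : V) : Prop :=
  (∀ F ∈ FF p s, |u F Y| ≤ B * E) ∧
    ∀ F ∈ FF p s, H ⊆ F → e F ≤ u F Y ∧ (u F Y = e F ↔ F ∈ c)

lemma Sup.step (h : Sup p s one u) {C : ℝ} (hC : Cst p s u C) {e : Finset ι → ℝ} {M : ℝ}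
    (hM : 2 * C ^ 4 + 3 * C ^ 2 + 1 ≤ M)
    (he : ∀ K ∈ FF p s, ∀ F ∈ FF p s, K ⊂ F → 0 < e K ∧ M * e F ≤ e K)
    {c : Finset (Finset ι)} {F₁ H : Finset ι} {E : ℝ} {Y : V}
    (h1 : F₁ ∈ FF p s) (hs : H ⊆ s) (hF : F₁ ⊂ H) (hcH : ∀ F ∈ c, H ⊆ F) (hE : 0 ≤ E)
    (hME : M * E ≤ e F₁) (he1 : 0 ≤ e F₁) (hY : Pt p s u e (2 * C ^ 2) c H E Y) :
    ∃ Y', Pt p s u e (2 * C ^ 2) (insert F₁ c) F₁ (e F₁) Y' := by
  have hC1 := hC.1
  have hC2 : 1 ≤ C ^ 2 := by nlinarith
  have hC4 : 1 ≤ C ^ 4 := by nlinarith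
  have hM0 : 0 < M := by linarith
  have hpos : 0 < u F₁ (q p H) := h.q_pos h1 hs hF.2
  obtain ⟨hle, hge⟩ := hC.2 F₁ h1 H hs
  replace hge := hge hpos
  set a := (e F₁ - u F₁ Y) / u F₁ (q p H) with ha
  have ha' : a * u F₁ (q p H) = e F₁ - u F₁ Y := div_mul_cancel₀ _ hpos.ne'
  have hY1 := abs_le.1 (hY.1 F₁ h1)
  have hE1 : E ≤ e F₁ / M := by rwa [le_div_iff₀ hM0, mul_comm]
  -- numerator
  have hn1 : 0 ≤ e F₁ - u F₁ Y := by
    have : 2 * C ^ 2 * E ≤ M * E := mul_le_mul_of_nonneg_right (by nlinarith) hE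
    linarith
  have ha0 : 0 ≤ a := div_nonneg hn1 hpos.le
  have haC : e F₁ - u F₁ Y ≤ C * a := by
    rw [← ha', mul_comm C]
    exact mul_le_mul_of_nonneg_left hle ha0
  have haC' : a ≤ C * (e F₁ - u F₁ Y) := by
    rw [← ha']
    nlinarith
  refine ⟨Y + a • q p H, fun F hF' => ?_, fun F hF' hF1F => ?_⟩
  · rw [map_add, map_smul, smul_eq_mul, abs_le]
    have hYF := abs_le.1 (hY.1 F hF')
    have hq0 := h.q_nonneg hF' hs
    have hqC := (hC.2 F hF' H hs).1
    have h3 : a * u F (q p H) ≤ C * (e F₁ - u F₁ Y) * C :=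
      mul_le_mul haC' hqC hq0 (by positivity)
    have h4 : 0 ≤ a * u F (q p H) := mul_nonneg ha0 hq0
    have h5 : C ^ 2 * (2 * C ^ 2 + 1) * (2 * E) ≤ C ^ 2 * e F₁ * 2 := by
      have : (2 * C ^ 2 + 1) * E ≤ M * E := mul_le_mul_of_nonneg_right (by nlinarith) hE
      nlinarith
    constructor
    · nlinarith
    · nlinarith
  · rw [map_add, map_smul, smul_eq_mul]
    by_cases hFF : F = F₁
    · subst hFF
      rw [ha']
      refine ⟨by linarith, fun _ => mem_insert_self _ _, fun _ => by ring⟩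
    · have hss : F₁ ⊂ F := hF1F.ssubset_of_ne (Ne.symm hFF)
      by_cases hHF : H ⊆ F
      · rw [h.q_zero hF' hHF, mul_zero, add_zero]
        refine ⟨(hY.2 F hF' hHF).1, ?_⟩
        rw [(hY.2 F hF' hHF).2, mem_insert]
        exact ⟨Or.inr, fun h => h.resolve_left hFF⟩
      · obtain ⟨he0, heM⟩ := he F₁ h1 F hF' hss
        have hYF := abs_le.1 (hY.1 F hF')
        have hqpos := h.q_pos hF' hs hHF
        have hqge := (hC.2 F hF' H hs).2 hqpos
        have hlt : e F < u F Y + a * u F (q p H) := by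
          have h3 : e F₁ - u F₁ Y ≤ C ^ 2 * (a * u F (q p H)) := by
            have : a * 1 ≤ a * (C * u F (q p H)) := mul_le_mul_of_nonneg_left hqge ha0
            nlinarith
          have h4 : e F * M ≤ e F₁ := by linarith
          -- multiply by `C² M`
          have h5 : 0 < C ^ 2 * M * (u F Y + a * u F (q p H) - e F) := by
            have e1 : C ^ 2 * M * (a * u F (q p H)) ≥ M * (e F₁ - u F₁ Y) := by
              nlinarith
            have e2 : M * (u F₁ Y) ≤ 2 * C ^ 2 * e F₁ := by nlinarith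
            have e3 : C ^ 2 * M * u F Y ≥ - (C ^ 2 * (2 * C ^ 2 * e F₁)) := by
              have : C ^ 2 * (M * (-u F Y)) ≤ C ^ 2 * (2 * C ^ 2 * e F₁) :=
                mul_le_mul_of_nonneg_left (by nlinarith) (by positivity)
              nlinarith
            have e4 : C ^ 2 * M * e F ≤ C ^ 2 * e F₁ := by nlinarith
            have e5 : (2 * C ^ 4 + 3 * C ^ 2 + 1) * e F₁ ≤ M * e F₁ :=
              mul_le_mul_of_nonneg_right hM he1
            nlinarith
          have h6 : 0 < C ^ 2 * M := by positivity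
          have := (mul_pos_iff_of_pos_left h6).1 h5
          linarith
        refine ⟨hlt.le, fun h => absurd h hlt.ne', fun h => ?_⟩
        rw [mem_insert] at h
        exact absurd (hcH F (h.resolve_left hFF)) hHF

omit [DecidableEq ι] in
/-- The smallest element of a chain. -/
lemma exists_least {c : Finset (Finset ι)} (hc : IsChain (· ⊆ ·) (c : Set (Finset ι)))
    (hne : c.Nonempty) : ∃ H ∈ c, ∀ F ∈ c, H ⊆ F := by
  obtain ⟨H, hH, hmin⟩ := c.exists_minimal hne
  refine ⟨H, hH, fun F hF => ?_⟩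
  rcases hc.total hH hF with h | h
  · exact h
  · exact hmin hF h

lemma Sup.chain (h : Sup p s one u) {C : ℝ} (hC : Cst p s u C) {e : Finset ι → ℝ} {M : ℝ}
    (hM : 2 * C ^ 4 + 3 * C ^ 2 + 1 ≤ M) (he0 : ∀ F ∈ FF p s, 0 ≤ e F)
    (he : ∀ K ∈ FF p s, ∀ F ∈ FF p s, K ⊂ F → 0 < e K ∧ M * e F ≤ e K)
    (n : ℕ) : ∀ c : Finset (Finset ι), c.card = n → c ⊆ FF p s →
      IsChain (· ⊆ ·) (c : Set (Finset ι)) →
    ∃ H E Y, Pt p s u e (2 * C ^ 2) c H E Y ∧ (c = ∅ → H = s ∧ E = 0) ∧
      (c.Nonempty → H ∈ c ∧ (∀ F ∈ c, H ⊆ F) ∧ E = e H) := by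
  induction n with
  | zero =>
    intro c hc _ _
    rw [card_eq_zero] at hc
    subst hc
    refine ⟨s, 0, 0, ⟨fun F _ => by simp, fun F hF hs => ?_⟩, fun _ => ⟨rfl, rfl⟩, fun h => ?_⟩
    · exact absurd hs (FF_ssubset hF).2
    · exact absurd h not_nonempty_empty
  | succ n ih =>
    intro c hc hcF hch
    obtain ⟨F₁, h1, hmin⟩ := exists_least hch (card_pos.1 (by omega))
    obtain ⟨H, E, Y, hY, hem, hne⟩ := ih (c.erase F₁) (by rw [card_erase_of_mem h1]; omega)
      ((erase_subset _ _).trans hcF) (hch.mono (by exact_mod_cast erase_subset F₁ c))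
    have h1F := hcF h1
    have key : ∃ Y', Pt p s u e (2 * C ^ 2) (insert F₁ (c.erase F₁)) F₁ (e F₁) Y' := by
      rcases (c.erase F₁).eq_empty_or_nonempty with h0 | h0
      · obtain ⟨rfl, rfl⟩ := hem h0
        refine h.step hC hM he h1F (Subset.refl _) (FF_ssubset h1F) ?_ le_rfl ?_ (he0 _ h1F) hY
        · rw [h0]
          simp
        · rw [mul_zero]
          exact he0 _ h1F
      · obtain ⟨hH, hHmin, rfl⟩ := hne h0
        have hHc := mem_of_mem_erase hH
        have hss : F₁ ⊂ H := (hmin H hHc).ssubset_of_ne (ne_of_mem_erase hH).symm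
        exact h.step hC hM he h1F (FF_subset (hcF hHc)) hss hHmin (he0 _ (hcF hHc))
          (he _ h1F _ (hcF hHc) hss).2 (he0 _ h1F) hY
    rw [insert_erase h1] at key
    obtain ⟨Y', hY'⟩ := key
    refine ⟨F₁, e F₁, Y', hY', fun h => ?_, fun _ => ⟨h1, hmin, rfl⟩⟩
    rw [h, card_empty] at hc
    omega

/-- The scale of the truncations. -/
def Scale (p : ι → V) (s : Finset ι) (M : ℝ) (e : Finset ι → ℝ) : Prop :=
  (∀ F ∈ FF p s, 0 ≤ e F) ∧ ∀ K ∈ FF p s, ∀ F ∈ FF p s, K ⊂ F → 0 < e K ∧ M * e F ≤ e K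

/-- LEMMA T: the tight sets of the truncated polytope are the chains of faces. -/
theorem Sup.trunc (h : Sup p s one u) (hs : s.Nonempty) : ∃ M : ℝ, 1 ≤ M ∧
    ∀ e : Finset ι → ℝ, Scale p s M e → ∀ᶠ t in 𝓝[>] (0 : ℝ),
    (∀ X, one X = 1 → (∀ F ∈ FF p s, t * e F ≤ u F X) → ∀ F ∈ FF p s, ∀ G ∈ FF p s,
      u F X = t * e F → u G X = t * e G → F ⊆ G ∨ G ⊆ F) ∧
    (∀ c ⊆ FF p s, IsChain (· ⊆ ·) (c : Set (Finset ι)) → ∃ X, one X = 1 ∧
      ∀ F ∈ FF p s, t * e F ≤ u F X ∧ (u F X = t * e F ↔ F ∈ c)) := by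
  obtain ⟨C, hC⟩ := exists_cst (p := p) (s := s) (u := u)
  have hC1 := hC.1
  have hC2 : 1 ≤ C ^ 2 := by nlinarith
  have hC4 : 1 ≤ C ^ 4 := by nlinarith
  refine ⟨2 * C ^ 4 + 3 * C ^ 2 + 1, by nlinarith, fun e he => ?_⟩
  obtain ⟨he0, he⟩ := he
  refine Filter.Eventually.and ?_ ?_
  · -- tight sets
    have hev : ∀ᶠ t in 𝓝[>] (0 : ℝ), ∀ F ∈ FF p s, ∀ G ∈ FF p s, C * (t * e F + t * e G) < 1 := by
      rw [Filter.eventually_all_finset]
      intro F _
      rw [Filter.eventually_all_finset]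
      intro G _
      have : Filter.Tendsto (fun t : ℝ => C * (t * e F + t * e G)) (𝓝[>] 0) (𝓝 0) := by
        have h1 : Continuous fun t : ℝ => C * (t * e F + t * e G) := by fun_prop
        have h2 := (h1.tendsto 0).mono_left (nhdsWithin_le_nhds (s := Set.Ioi 0))
        simpa using h2
      exact this.eventually_lt_const one_pos
    filter_upwards [hev, self_mem_nhdsWithin] with t ht ht0 X hX1 hX F hF G hG hFX hGX
    have ht0' : 0 < t := ht0
    by_contra hcon
    rw [not_or] at hcon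
    have hX0 : ∀ F ∈ FF p s, 0 ≤ u F X := fun F hF =>
      (mul_nonneg ht0'.le (he0 F hF)).trans (hX F hF)
    have hX1' : 0 < one X := by rw [hX1]; exact one_pos
    rcases (F ∩ G).eq_empty_or_nonempty with hK | hK
    · have h1 := h.disj hC hF hG hK hX1' hX0
      rw [hX1, hFX, hGX] at h1
      exact absurd h1 (not_le.2 (ht F hF G hG))
    · have hKF := inter_mem_FF hF hG hK
      have h1 := h.inter hC hF hG hKF hX1' hX0
      have h2 := hX _ hKF
      rw [hFX, hGX] at h1
      have hKssF : F ∩ G ⊂ F := inter_subset_left.ssubset_of_ne fun he => hcon.1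
        (by rw [← he]; exact inter_subset_right)
      have hKssG : F ∩ G ⊂ G := inter_subset_right.ssubset_of_ne fun he => hcon.2
        (by rw [← he]; exact inter_subset_left)
      obtain ⟨hK0, hKF1⟩ := he _ hKF _ hF hKssF
      obtain ⟨-, hKG1⟩ := he _ hKF _ hG hKssG
      have h3 : e (F ∩ G) ≤ C ^ 2 * (e F + e G) := by
        have : t * e (F ∩ G) ≤ t * (C ^ 2 * (e F + e G)) := by linarith
        exact le_of_mul_le_mul_left this ht0'
      nlinarith [he0 F hF, he0 G hG]
  · have hev : ∀ᶠ t in 𝓝[>] (0 : ℝ), ∀ c ∈ (FF p s).powerset,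
        IsChain (· ⊆ ·) (c : Set (Finset ι)) → ∃ X, one X = 1 ∧
        ∀ F ∈ FF p s, t * e F ≤ u F X ∧ (u F X = t * e F ↔ F ∈ c) := by
      rw [Filter.eventually_all_finset]
      intro c hc
      rw [mem_powerset] at hc
      by_cases hch : IsChain (· ⊆ ·) (c : Set (Finset ι))
      swap
      · exact Filter.Eventually.of_forall fun t h => absurd h hch
      obtain ⟨H, E, Y, hY, hem, hne⟩ := h.chain hC le_rfl he0 he _ c rfl hc hch
      have hHs : H ⊆ s ∧ H.Nonempty ∧ ∀ F ∈ c, H ⊆ F := by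
        rcases c.eq_empty_or_nonempty with h0 | h0
        · rw [(hem h0).1]
          exact ⟨Subset.refl _, hs, by simp [h0]⟩
        · obtain ⟨h1, h2, -⟩ := hne h0
          exact ⟨FF_subset (hc h1), (mem_FF.1 (hc h1)).2.1, h2⟩
      obtain ⟨hHs, hHne, hHc⟩ := hHs
      have hcard : (0 : ℝ) < H.card := by exact_mod_cast hHne.card_pos
      obtain ⟨b, hb⟩ : ∃ b : V, b = (H.card : ℝ)⁻¹ • q p H := ⟨_, rfl⟩
      have hb1 : one b = 1 := by
        rw [hb, map_smul, h.q_one hHs, smul_eq_mul, inv_mul_cancel₀ hcard.ne']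
      have hev : ∀ᶠ t in 𝓝[>] (0 : ℝ), ∀ F ∈ FF p s, ¬ H ⊆ F →
          t * e F < (1 - t * one Y) * u F b + t * u F Y := by
        rw [Filter.eventually_all_finset]
        intro F hF
        by_cases hHF : H ⊆ F
        · exact Filter.Eventually.of_forall fun t h => absurd hHF h
        have hpos : 0 < u F b := by
          rw [hb, map_smul, smul_eq_mul]
          exact mul_pos (inv_pos.2 hcard) (h.q_pos hF hHs hHF)
        have : Filter.Tendsto (fun t : ℝ => (1 - t * one Y) * u F b + t * u F Y - t * e F)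
            (𝓝[>] 0) (𝓝 (u F b)) := by
          have h1 : Continuous fun t : ℝ => (1 - t * one Y) * u F b + t * u F Y - t * e F := by
            fun_prop
          have h2 := (h1.tendsto 0).mono_left (nhdsWithin_le_nhds (s := Set.Ioi 0))
          simpa using h2
        filter_upwards [this.eventually_const_lt hpos] with t ht _
        linarith
      filter_upwards [hev, self_mem_nhdsWithin] with t ht ht0 _
      have ht0' : 0 < t := ht0
      refine ⟨(1 - t * one Y) • b + t • Y, ?_, fun F hF => ?_⟩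
      · rw [map_add, map_smul, map_smul, hb1, smul_eq_mul, smul_eq_mul]
        ring
      · rw [map_add, map_smul, map_smul, smul_eq_mul, smul_eq_mul]
        by_cases hHF : H ⊆ F
        · have hb0 : u F b = 0 := by
            rw [hb, map_smul, h.q_zero hF hHF, smul_zero]
          obtain ⟨h1, h2⟩ := hY.2 F hF hHF
          rw [hb0, mul_zero, zero_add, mul_right_inj' ht0'.ne']
          exact ⟨mul_le_mul_of_nonneg_left h1 ht0'.le, h2⟩
        · have h1 := ht F hF hHF
          exact ⟨h1.le, fun h => absurd h h1.ne', fun h => absurd (hHc F h) hHF⟩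
    filter_upwards [hev] with t ht c hc hch
    exact ht c (mem_powerset.2 hc) hch

end

end Pool.Agent.KF.T
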